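import Pool.Agent.H75C.SP.Hard
import Pool.Agent.H75C.NX.Embed

/-!
# Polynomial-time algorithms with an oracle of subexponential density and few further queries
-/

namespace Pool.Agent.H75C.SP

open Pool.Agent.NPC Pool.Agent.H660R2.NX Pool.Agent.H75C.RD
open Pool.Agent.H75C.NX (tstA tstA_iff poly_tstA query_length qlP head?_false poly_take)

attribute [local irreducible] unpair

/-- The join of two oracles: the query `false :: q` asks whether `q ∈ A`, the query `true :: q` asks
whether `q ∈ B`. -/
def join (A B : Set (List Bool)) : Set (List Bool) :=
  {y | (∃ q ∈ A, y = false :: q) ∨ ∃ q ∈ B, y = true :: q}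

/-- The set `A` has subexponential density: for every `k` it has, for all large `n`, at most `2 ^ n`
elements of length at most `n ^ k`. -/
def SubexpDense (A : Set (List Bool)) : Prop :=
  ∀ k : ℕ, ∃ m : ℕ, ∀ n : ℕ, m ≤ n → {q | q ∈ A ∧ q.length ≤ n ^ k}.encard ≤ ((2 ^ n : ℕ) : ℕ∞)

open Classical in
/-- The number of the queries to the second oracle among the first `h.length` queries, if the
answers are `h`. -/
noncomputable def secondQueries (act : List Bool → List Bool) (h : List Bool) : ℕ :=
  ((Finset.range h.length).filter (fun i => ∃ q, act (h.take i) = false :: true :: q)).card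

/-- `InPNPSparse c L`: the language `L` is decided in polynomial time, with `n ^ c + c` bits of advice,
with two oracles in `NP`: polynomially many queries may be asked to the first oracle `A`, which has
subexponential density, and at most `n ^ c + c` queries to the second oracle `B`. The queries are
adaptive, and their length is bounded by an arbitrary polynomial. -/
def InPNPSparse (c : ℕ) (L : Set (List Bool)) : Prop :=
  ∃ (f : List Bool → List Bool) (A B : Set (List Bool)) (r : Polynomial ℕ) (a : ℕ → List Bool),
    PolyTime f ∧ InNP A ∧ SubexpDense A ∧ InNP B ∧ (∀ n, (a n).length ≤ n ^ c + c) ∧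
    ∀ x : List Bool,
      Decides (alg f x (a x.length)) (join A B) (r.eval x.length) (x ∈ L) ∧
      ∀ h, Correct (alg f x (a x.length)) (join A B) h →
        secondQueries (alg f x (a x.length)) h ≤ x.length ^ c + c

theorem false_mem_join {A B : Set (List Bool)} {q : List Bool} : false :: q ∈ join A B ↔ q ∈ A := by
  unfold join
  simp

theorem true_mem_join {A B : Set (List Bool)} {q : List Bool} : true :: q ∈ join A B ↔ q ∈ B := by
  unfold join
  simp

theorem nil_mem_join {A B : Set (List Bool)} : [] ∉ join A B := by
  unfold join
  simp

/-! ### The simulation -/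

/-- One step of the simulation: the queries to the first oracle are answered with the table `F`,
those to the second one with the list of answers. -/
def step (f : List Bool → List Bool) (F : List (List Bool)) (z : List Bool)
    (s : List Bool × List Bool) : List Bool × List Bool :=
  if (f (pairBits z s.1)).head? = some false then
    if (f (pairBits z s.1)).tail.head? = some true then (s.1 ++ s.2.take 1, s.2.tail)
    else (s.1 ++ [decide ((f (pairBits z s.1)).tail.head? = some false) &&
      decide ((f (pairBits z s.1)).tail.tail ∈ F)], s.2)
  else s

/-- The simulation. -/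
def sim (f : List Bool → List Bool) (F : List (List Bool)) (z : List Bool) (R : ℕ)
    (bs : List Bool) : List Bool × List Bool := (step f F z)^[R] ([], bs)

theorem step_congr {f : List Bool → List Bool} {F F' : List (List Bool)} {z : List Bool}
    (h : ∀ q, q ∈ F ↔ q ∈ F') : step f F z = step f F' z := by
  funext s
  unfold step
  simp only [h]

theorem length_step (f : List Bool → List Bool) (F : List (List Bool)) (z : List Bool)
    (s : List Bool × List Bool) : (step f F z s).1.length ≤ s.1.length + 1 ∧
      (step f F z s).2.length ≤ s.2.length := by
  unfold step
  split_ifs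
  · simp only [List.length_append, List.length_take, List.length_tail]
    omega
  · simp
  · simp

theorem length_iterate (f : List Bool → List Bool) (F : List (List Bool)) (z : List Bool)
    (s : List Bool × List Bool) (t : ℕ) : ((step f F z)^[t] s).1.length ≤ s.1.length + t ∧
      ((step f F z)^[t] s).2.length ≤ s.2.length := by
  induction t with
  | zero => simp
  | succ t ih =>
    rw [Function.iterate_succ_apply']
    have := length_step f F z ((step f F z)^[t] s)
    omega

/-! ### The answers of the second oracle -/

/-- The answers of the second oracle among the first `m` answers. -/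
def bans (act : List Bool → List Bool) (h : List Bool) : ℕ → List Bool
  | 0 => []
  | m + 1 => bans act h m ++
      (if (act (h.take m)).tail.head? = some true then [h.getD m false] else [])

theorem bans_prefix (act : List Bool → List Bool) (h : List Bool) {m m' : ℕ} (hm : m ≤ m') :
    bans act h m <+: bans act h m' := by
  induction hm with
  | refl => exact List.prefix_rfl
  | step _ ih => exact ih.trans (List.prefix_append _ _)

theorem bans_succ_true {act : List Bool → List Bool} {h : List Bool} {m : ℕ}
    (hm : m < h.length) {q : List Bool} (h1 : act (h.take m) = false :: true :: q) :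
    bans act h (m + 1) = bans act h m ++ [h[m]] := by
  rw [bans, h1, List.tail_cons, if_pos (by simp), List.getD_eq_getElem _ _ hm]

theorem length_bans {act : List Bool → List Bool} {O : Set (List Bool)} {h : List Bool}
    (hc : Correct act O h) : (bans act h h.length).length = secondQueries act h := by
  classical
  unfold secondQueries
  have key : ∀ m ≤ h.length, (bans act h m).length =
      ((Finset.range m).filter (fun i => ∃ q, act (h.take i) = false :: true :: q)).card := by
    intro m
    induction m with
    | zero => intro _; simp [bans]
    | succ m ih =>
      intro hm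
      rw [bans, List.length_append, ih (by omega), Finset.range_add_one, Finset.filter_insert]
      obtain ⟨q, hq, _⟩ := hc m (by omega)
      have e1 : (act (h.take m)).tail.head? = some true ↔
          ∃ q, act (h.take m) = false :: true :: q := by
        rw [hq, List.tail_cons]
        cases q with
        | nil => simp
        | cons b q => simp
      by_cases h1 : (act (h.take m)).tail.head? = some true
      · rw [if_pos h1, if_pos (e1.1 h1), Finset.card_insert_of_notMem (by simp)]
        simp
      · rw [if_neg h1, if_neg (fun h2 => h1 (e1.2 h2))]
        simp
  convert key h.length le_rfl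

/-! ### Correctness of the simulation -/

section Corr

variable {f : List Bool → List Bool} {F : List (List Bool)} {z : List Bool}
  {A B : Set (List Bool)} {h bs : List Bool}

/-- The steps of the simulation for correct answers. -/
theorem sim_inv (hc : Correct (fun h => f (pairBits z h)) (join A B) h)
    (hfin : ∀ q, f (pairBits z h) ≠ false :: q)
    (hF : ∀ i < h.length, ∀ q, f (pairBits z (h.take i)) = false :: false :: q → (q ∈ F ↔ q ∈ A))
    (hbs : bs <+: bans (fun h => f (pairBits z h)) h h.length) (t : ℕ) :
    ∃ m ≤ h.length, ((step f F z)^[t] ([], bs)).1 = h.take m ∧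
      bans (fun h => f (pairBits z h)) h m ++ ((step f F z)^[t] ([], bs)).2 = bs ∧
      (m = t ∨ step f F z ((step f F z)^[t] ([], bs)) = (step f F z)^[t] ([], bs)) := by
  induction t with
  | zero => exact ⟨0, Nat.zero_le _, by simp, by simp [bans], Or.inl rfl⟩
  | succ t ih =>
    rw [Function.iterate_succ_apply']
    obtain ⟨m, hm, h1, h2, h3⟩ := ih
    generalize (step f F z)^[t] ([], bs) = s at h1 h2 h3 ⊢
    by_cases hst : step f F z s = s
    · exact ⟨m, hm, by rw [hst]; exact h1, by rw [hst]; exact h2, Or.inr (by rw [hst, hst])⟩
    · have hmt : m = t := h3.resolve_right hst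
      subst hmt
      rcases Nat.lt_or_ge m h.length with hlt | hge
      · obtain ⟨q, hq, hq'⟩ := hc m hlt
        simp only at hq
        have htk : h.take (m + 1) = h.take m ++ [h[m]] := by
          rw [List.take_succ_eq_append_getElem hlt]
        have hgd : h.getD m false = h[m] := List.getD_eq_getElem _ _ hlt
        by_cases hB : q.head? = some true
        · -- a query to the second oracle
          have e1 : step f F z s = (s.1 ++ s.2.take 1, s.2.tail) := by
            unfold step
            rw [h1, hq, if_pos (by simp), if_pos (by rw [List.tail_cons]; exact hB)]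
          have e2 : bans (fun h => f (pairBits z h)) h (m + 1) =
              bans (fun h => f (pairBits z h)) h m ++ [h[m]] := by
            rw [bans, hq, List.tail_cons, if_pos hB, hgd]
          cases h4 : s.2 with
          | nil =>
            exfalso
            apply hst
            rw [e1, h4]
            simp only [List.take_nil, List.append_nil, List.tail_nil]
            rw [← h4]
          | cons b rest =>
            have h5 : b = h[m] := by
              have h6 : bans (fun h => f (pairBits z h)) h m ++ b :: rest <+:
                  bans (fun h => f (pairBits z h)) h h.length := by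
                rw [← h4, h2]
                exact hbs
              have h7 := bans_prefix (fun h => f (pairBits z h)) h (m := m + 1) (m' := h.length) hlt
              rw [e2] at h7
              obtain ⟨u, hu⟩ := h6
              obtain ⟨v, hv⟩ := h7
              rw [← hu, List.append_assoc, List.append_assoc, List.append_cancel_left_eq] at hv
              simp only [List.cons_append, List.cons.injEq] at hv
              exact hv.1.symm
            refine ⟨m + 1, hlt, ?_, ?_, Or.inl rfl⟩
            · rw [e1, h4, htk, h1, h5]
              simp
            · rw [e1, e2, h4]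
              simp only [List.tail_cons, List.append_assoc, List.singleton_append]
              rw [← h5, ← h4]
              exact h2
        · -- a query to the first oracle
          have e1 : step f F z s = (s.1 ++ [h[m]], s.2) := by
            unfold step
            rw [h1, hq, if_pos (by simp), if_neg (by rw [List.tail_cons]; exact hB),
              List.tail_cons]
            congr 3
            rw [Bool.eq_iff_iff, hq']
            cases q with
            | nil => simp [nil_mem_join]
            | cons b q =>
              cases b with
              | true => simp at hB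
              | false =>
                rw [false_mem_join, ← hF m hlt q hq]
                simp only [List.head?_cons, decide_true, Bool.true_and, List.tail_cons]
                exact decide_eq_true_iff
          have e2 : bans (fun h => f (pairBits z h)) h (m + 1) =
              bans (fun h => f (pairBits z h)) h m := by
            rw [bans, hq, List.tail_cons, if_neg hB, List.append_nil]
          refine ⟨m + 1, hlt, ?_, ?_, Or.inl rfl⟩
          · rw [e1, htk, h1]
          · rw [e1, e2]
            exact h2
      · exfalso
        apply hst
        have hmh : m = h.length := le_antisymm hm hge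
        unfold step
        rw [h1, hmh, List.take_length, if_neg]
        rw [head?_false]
        rintro ⟨q, hq⟩
        exact hfin q hq

/-- The result of the simulation. -/
theorem sim_fin (hc : Correct (fun h => f (pairBits z h)) (join A B) h)
    (hfin : ∀ q, f (pairBits z h) ≠ false :: q)
    (hF : ∀ i < h.length, ∀ q, f (pairBits z (h.take i)) = false :: false :: q → (q ∈ F ↔ q ∈ A))
    (hbs : bs <+: bans (fun h => f (pairBits z h)) h h.length) {R : ℕ} (hR : h.length < R) :
    ((sim f F z R bs).1 = h ∧ bs = bans (fun h => f (pairBits z h)) h h.length) ∨
      ∃ (m : ℕ) (hm : m < h.length) (q : List Bool), (sim f F z R bs).1 = h.take m ∧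
        bs = bans (fun h => f (pairBits z h)) h m ∧
        f (pairBits z (h.take m)) = false :: true :: q ∧ (h[m] = true ↔ q ∈ B) := by
  obtain ⟨m, hm, h1, h2, h3⟩ := sim_inv hc hfin hF hbs R
  have hst := h3.resolve_left (by omega)
  rcases Nat.lt_or_ge m h.length with hlt | hge
  · right
    obtain ⟨q, hq, hq'⟩ := hc m hlt
    simp only at hq
    generalize hs : (step f F z)^[R] ([], bs) = s at h1 h2 hst
    by_cases hB : q.head? = some true
    · have e1 : step f F z s = (s.1 ++ s.2.take 1, s.2.tail) := by
        unfold step
        rw [h1, hq, if_pos (by simp), if_pos (by rw [List.tail_cons]; exact hB)]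
      rw [e1] at hst
      have e2 := congrArg Prod.fst hst
      simp only at e2
      have e3 : s.2 = [] := by
        cases h4 : s.2 with
        | nil => rfl
        | cons b rest =>
          rw [h4] at e2
          simp at e2
      cases q with
      | nil => simp at hB
      | cons b q =>
        simp only [List.head?_cons, Option.some.injEq] at hB
        subst hB
        refine ⟨m, hlt, q, ?_, ?_, hq, ?_⟩
        · unfold sim
          rw [hs]
          exact h1
        · rw [← h2, e3, List.append_nil]
        · rw [hq', true_mem_join]
    · exfalso
      have e1 : (step f F z s).1.length = s.1.length + 1 := by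
        unfold step
        rw [h1, hq, if_pos (by simp), if_neg (by rw [List.tail_cons]; exact hB)]
        simp
      rw [hst] at e1
      omega
  · left
    have hmh : m = h.length := le_antisymm hm hge
    subst hmh
    constructor
    · unfold sim
      rw [h1, List.take_length]
    · obtain ⟨u, hu⟩ := hbs
      have h4 := congrArg List.length h2
      have h5 := congrArg List.length hu
      rw [List.length_append] at h4 h5
      have h6 : u = [] := List.eq_nil_of_length_eq_zero (by omega)
      rw [← hu, h6, List.append_nil]

end Corr

/-! ### The machine -/

section Mach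

variable (f : List Bool → List Bool) (r : Polynomial ℕ)

/-- The next action after the simulation with the table `t.1`. -/
def act1 (t : List (List Bool) × (List Bool × List Bool × List (List Bool) × List Unit)) :
    List Bool :=
  f (pairBits (pairBits t.2.1 t.2.2.1) (sim f t.1 (pairBits t.2.1 t.2.2.1)
    (r.eval t.2.1.length + 1) t.2.2.2.1.flatten).1)

/-- The next query to the second oracle. -/
def Qs (t : List (List Bool) × (List Bool × List Bool × List (List Bool) × List Unit)) :
    List (List Bool) :=
  if (act1 f r t).head? = some false ∧ (act1 f r t).tail.head? = some true then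
    [(act1 f r t).tail.tail] else []

/-- The decision. -/
def Ds (t : List (List Bool) × (List Bool × List Bool × List (List Bool) × List Unit)) : Bool :=
  decide (act1 f r t = [true])

variable {f r}

theorem poly_sim {α : Type} [TEnc α] {F : α → List (List Bool)} {z bs : α → List Bool}
    {k : α → ℕ} (hf : Poly f) (hF : Poly F) (hz : Poly z) (hbs : Poly bs) (hk : UPoly k) :
    Poly (fun a => sim f (F a) (z a) (k a) (bs a)) := by
  have hstep : Poly (fun p : α × List Bool × List Bool => step f (F p.1) (z p.1) p.2) := by
    have h1 : Poly (fun p : α × List Bool × List Bool => f (pairBits (z p.1) p.2.1)) :=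
      hf.comp (poly_pairBits (hz.comp (by fun_prop)) (by fun_prop))
    have h2 : Poly (fun p : α × List Bool × List Bool =>
        decide ((f (pairBits (z p.1) p.2.1)).tail.tail ∈ F p.1)) :=
      NPC.Poly.dec_mem (by fun_prop) (hF.comp (by fun_prop))
    have h3 : Poly (fun p : α × List Bool × List Bool => p.2.2.take 1) :=
      poly_take (by fun_prop) (NPC.Poly.const _)
    have h4 : Poly (fun p : α × List Bool × List Bool =>
        decide ((f (pairBits (z p.1) p.2.1)).head? = some false)) :=
      NPC.Poly.dec_eq (NPC.Poly.head? h1) (NPC.Poly.const _)
    have h5 : Poly (fun p : α × List Bool × List Bool =>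
        decide ((f (pairBits (z p.1) p.2.1)).tail.head? = some true)) :=
      NPC.Poly.dec_eq (NPC.Poly.head? (NPC.Poly.tail h1)) (NPC.Poly.const _)
    have h6 : Poly (fun p : α × List Bool × List Bool =>
        decide ((f (pairBits (z p.1) p.2.1)).tail.head? = some false)) :=
      NPC.Poly.dec_eq (NPC.Poly.head? (NPC.Poly.tail h1)) (NPC.Poly.const _)
    unfold step
    refine NPC.Poly.ite h4 (NPC.Poly.ite h5 ?_ ?_) (by fun_prop)
    · fun_prop
    · fun_prop
  obtain ⟨q, hq⟩ := Poly.sz_le hk
  obtain ⟨q2, hq2⟩ := Poly.sz_le hbs
  have hmain : Poly (fun a => (step f (F a) (z a))^[(List.replicate (k a) ()).length]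
      (([], bs a) : List Bool × List Bool)) := by
    refine NPC.Poly.iterLen (l := fun a => List.replicate (k a) ()) (s := fun a => ([], bs a))
      (F := fun a => step f (F a) (z a)) hk (by fun_prop) hstep (4 * q + 4 * q2 + 20) ?_
    intro a j hj
    have h1 := length_iterate f (F a) (z a) ([], bs a) j
    have h2 := hq a
    have h3 := length_lt_sz (List.replicate (k a) ())
    have h5 := hq2 a
    have h6 := length_lt_sz (bs a)
    generalize (step f (F a) (z a))^[j] ([], bs a) = s at h1
    obtain ⟨h, v⟩ := s
    have h4 := sz_listBool_le h
    have h7 := sz_listBool_le v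
    simp only [sz_pair, Polynomial.eval_add, Polynomial.eval_mul, Polynomial.eval_ofNat]
    simp only [List.length_nil] at h1
    omega
  refine hmain.congr fun a => ?_
  rw [List.length_replicate]
  rfl

theorem poly_act1 (hf : Poly f) : Poly (act1 f r) := by
  have h0 : UPoly (fun t : List (List Bool) × (List Bool × List Bool × List (List Bool) ×
      List Unit) => t.2.1.length) := UPoly.length (by fun_prop)
  have h1 : UPoly (fun t : List (List Bool) × (List Bool × List Bool × List (List Bool) ×
      List Unit) => r.eval t.2.1.length + 1) := UPoly.add (UPoly.eval h0 r) (UPoly.const 1)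
  have h2 : Poly (fun t : List (List Bool) × (List Bool × List Bool × List (List Bool) ×
      List Unit) => t.2.2.2.1.flatten) := NPC.Poly.flatten (by fun_prop)
  have h3 : Poly (fun t : List (List Bool) × (List Bool × List Bool × List (List Bool) ×
      List Unit) => sim f t.1 (pairBits t.2.1 t.2.2.1) (r.eval t.2.1.length + 1)
        t.2.2.2.1.flatten) := poly_sim hf (by fun_prop) (by fun_prop) h2 h1
  unfold act1
  exact hf.comp (poly_pairBits (by fun_prop) (NPC.Poly.fst h3))

theorem poly_Qs (hf : Poly f) : Poly (Qs f r) := by
  have h1 := poly_act1 (r := r) hf
  unfold Qs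
  refine NPC.Poly.ite ?_ (by fun_prop) (NPC.Poly.const _)
  have h2 : Poly (fun t => decide ((act1 f r t).head? = some false)) :=
    NPC.Poly.dec_eq (NPC.Poly.head? h1) (NPC.Poly.const _)
  have h3 : Poly (fun t => decide ((act1 f r t).tail.head? = some true)) :=
    NPC.Poly.dec_eq (NPC.Poly.head? (NPC.Poly.tail h1)) (NPC.Poly.const _)
  exact (NPC.Poly.and h2 h3).congr fun t => by simp

theorem poly_Ds (hf : Poly f) : Poly (Ds f r) := by
  unfold Ds
  exact NPC.Poly.dec_eq (poly_act1 hf) (NPC.Poly.const _)

end Mach

/-! ### The growth of polynomials -/

theorem eval_le_pow (p : Polynomial ℕ) : ∃ k m : ℕ, ∀ n, m ≤ n → p.eval n ≤ n ^ k := by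
  have key : ∃ k m : ℕ, 2 ≤ m ∧ ∀ n, m ≤ n → p.eval n ≤ n ^ k := by
    induction p using Polynomial.induction_on' with
    | add p q hp hq =>
      obtain ⟨k1, m1, h1, h1'⟩ := hp
      obtain ⟨k2, m2, h2, h2'⟩ := hq
      refine ⟨k1 + k2 + 1, m1 + m2, by omega, fun n hn => ?_⟩
      rw [Polynomial.eval_add]
      have e1 := h1' n (by omega)
      have e2 := h2' n (by omega)
      have e3 : n ^ k1 ≤ n ^ (k1 + k2) := Nat.pow_le_pow_right (by omega) (by omega)
      have e4 : n ^ k2 ≤ n ^ (k1 + k2) := Nat.pow_le_pow_right (by omega) (by omega)
      calc p.eval n + q.eval n ≤ n ^ (k1 + k2) * 2 := by omega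
        _ ≤ n ^ (k1 + k2) * n := Nat.mul_le_mul_left _ (by omega)
        _ = n ^ (k1 + k2 + 1) := (pow_succ _ _).symm
    | monomial d c =>
      refine ⟨d + 1, c + 2, by omega, fun n hn => ?_⟩
      rw [Polynomial.eval_monomial, pow_succ, Nat.mul_comm]
      exact Nat.mul_le_mul_left _ (by omega)
  obtain ⟨k, m, _, h⟩ := key
  exact ⟨k, m, h⟩

/-! ### The embedding -/

theorem sbig_of_sparse {c : ℕ} {L : Set (List Bool)} (h : InPNPSparse c L) : SBig c L := by
  obtain ⟨f, A, B, r, a, hf, ⟨VA, pA, hVA, hA⟩, hden, ⟨VB, pB, hVB, hB⟩, ha, hL⟩ := h
  obtain ⟨lf, hlf⟩ := length_bound hf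
  have hf' : Poly f := poly_of_polyTime hf
  have hVA' : Poly VA := poly_of_polyTime hVA
  have hVB' : Poly VB := poly_of_polyTime hVB
  set M : SM := ⟨Qs f r, Ds f r, fun e => tstA VB pB e.1 e.2, qlP c r lf, pB, 0,
    fun e => tstA VA pA e.1 e.2, qlP c r lf, pA⟩ with hM
  have htst : ∀ (V : List Bool → List Bool) (p : Polynomial ℕ) (q w : List Bool),
      tstA V p q w = true → w.length ≤ p.eval q.length := by
    intro V p q w h
    unfold tstA at h
    rw [Bool.and_eq_true, decide_eq_true_eq] at h
    exact h.1
  have horaB : ∀ q, (M.on []).ora q = true ↔ q ∈ B := by
    intro q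
    unfold RM.ora
    rw [List.any_eq_true, tstA_iff hB]
    simp only [SM.on, hM, mem_allStr]
    constructor
    · rintro ⟨w, _, h⟩
      exact ⟨w, h⟩
    · rintro ⟨w, h⟩
      exact ⟨w, htst _ _ _ _ h, h⟩
  have horaA : ∀ q, M.oraA q = true ↔ q ∈ A := by
    intro q
    unfold SM.oraA
    rw [List.any_eq_true, tstA_iff hA]
    simp only [hM, mem_allStr]
    constructor
    · rintro ⟨w, _, h⟩
      exact ⟨w, h⟩
    · rintro ⟨w, h⟩
      exact ⟨w, htst _ _ _ _ h, h⟩
  obtain ⟨k, m1, hk⟩ := eval_le_pow (qlP c r lf)
  obtain ⟨m2, hm2⟩ := hden k
  have hcongr : ∀ (F F' : List (List Bool)) t, (∀ q, q ∈ F ↔ q ∈ F') →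
      act1 f r (F, t) = act1 f r (F', t) := by
    intro F F' t hFF
    unfold act1 sim
    simp only [step_congr hFF]
  refine ⟨M, a, m1 + m2, ⟨poly_Qs hf', poly_Ds hf', poly_tstA hVB' (by fun_prop) (by fun_prop),
    poly_tstA hVA' (by fun_prop) (by fun_prop), fun q w h => htst _ _ _ _ h,
    fun q w h => htst _ _ _ _ h, ?_, ?_, ha, ?_, ?_⟩⟩
  · intro F F' t hFF
    simp only [hM, Qs, hcongr F F' t hFF]
  · intro F F' t hFF
    simp only [hM, Ds, hcongr F F' t hFF]
  · intro n hn
    have h1 := hm2 n (by omega)
    have h2 : (((M.tbl n).toFinset : Finset (List Bool)) : Set (List Bool)) ⊆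
        {q | q ∈ A ∧ q.length ≤ n ^ k} := by
      intro q hq
      rw [Finset.mem_coe, List.mem_toFinset, mem_tbl, horaA] at hq
      exact ⟨hq.2, hq.1.trans (hk n (by omega))⟩
    have h3 := (Set.encard_le_encard h2).trans h1
    rw [Set.encard_coe_eq_coe_finsetCard, List.toFinset_card_of_nodup (nodup_tbl M n)] at h3
    exact_mod_cast h3
  · intro x
    obtain ⟨⟨h, h1, h2, h3, h4⟩, h5⟩ := hL x
    have h6 := h5 h h2
    rw [← length_bans h2] at h6
    set b := a x.length with hb
    have hbl : b.length ≤ x.length ^ c + c := ha _
    have hact : alg f x b = fun h => f (pairBits (pairBits x b) h) := rfl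
    rw [hact] at h2 h3 h4 h6
    set act : List Bool → List Bool := fun h => f (pairBits (pairBits x b) h) with hact'
    set F := M.tbl x.length with hF
    have hFA : ∀ i < h.length, ∀ q, f (pairBits (pairBits x b) (h.take i)) = false :: false :: q →
        (q ∈ F ↔ q ∈ A) := by
      intro i hi q hq
      rw [hF, mem_tbl, horaA]
      have := query_length (r := r) hlf hbl (by rw [List.length_take]; omega) hq
      rw [List.length_cons] at this
      constructor
      · exact fun h => h.2
      · exact fun h => ⟨by simp only [hM]; omega, h⟩
    have hR : h.length < r.eval x.length + 1 := by omega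
    -- the histories
    have key : ∀ i, (hist ((M.on F).qs c (x, b)) (M.on []).ora i).flatten =
        (bans act h h.length).take i := by
      intro i
      induction i with
      | zero => simp [hist]
      | succ i ih =>
        rw [hist_succ, List.flatten_append, ih]
        set H := hist ((M.on F).qs c (x, b)) (M.on []).ora i with hH
        have hpre : H.flatten <+: bans act h h.length := by
          rw [ih]; exact List.take_prefix _ _
        have hq0 : (M.on F).qs c (x, b) H = ((Qs f r (F, (x, b, H, [()]))).take 1).filter
            (fun q => decide (q.length ≤ (qlP c r lf).eval x.length)) := by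
          unfold RM.qs RM.ww SM.on
          simp only [hM, Nat.zero_mul, pow_zero, List.replicate_one]
        rcases sim_fin h2 h3 hFA hpre hR with ⟨e1, e2⟩ | ⟨m, hm, q, e1, e2, e3, e4⟩
        · have e5 : Qs f r (F, (x, b, H, [()])) = [] := by
            unfold Qs act1
            simp only
            rw [e1, if_neg]
            rintro ⟨e6, _⟩
            rw [head?_false] at e6
            obtain ⟨q, hq⟩ := e6
            exact h3 q hq
          rw [hq0, e5]
          simp only [List.take_nil, List.filter_nil, List.map_nil, List.flatten_cons,
            List.flatten_nil, List.append_nil]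
          rw [ih] at e2
          change _ = bans act h h.length at e2
          have e6 := congrArg List.length e2
          rw [List.length_take] at e6
          rw [List.take_of_length_le (by omega), List.take_of_length_le (by omega)]
        · have e5 : Qs f r (F, (x, b, H, [()])) = [q] := by
            unfold Qs act1
            simp only
            rw [e1, e3]
            simp
          have e6 : q.length ≤ (qlP c r lf).eval x.length := by
            have := query_length (r := r) hlf hbl (by rw [List.length_take]; omega) e3
            rw [List.length_cons] at this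
            omega
          have e7 : (M.on []).ora q = h[m] := by
            rw [Bool.eq_iff_iff, horaB, e4]
          rw [hq0, e5]
          simp only [List.take_succ_cons, List.take_nil, List.filter_cons, e6, decide_true,
            if_true, List.filter_nil, List.map_cons, List.map_nil, e7, List.flatten_cons,
            List.flatten_nil, List.append_nil]
          have e8 : bans act h (m + 1) = bans act h m ++ [h[m]] := bans_succ_true hm e3
          change _ = bans act h m at e2
          obtain ⟨v, hv⟩ := bans_prefix act h (m := m + 1) (m' := h.length) hm
          rw [e8] at hv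
          rw [ih] at e2
          have e9 := congrArg List.length e2
          have e10 := congrArg List.length hv
          rw [List.length_take] at e9
          simp only [List.length_append, List.length_cons, List.length_nil] at e10
          have e11 : i = (bans act h m).length := by omega
          rw [e2, ← hv, e11, List.take_append_of_le_length (by simp)]
          rw [List.take_of_length_le (by simp)]
    -- the decision
    have hpre : (hist ((M.on F).qs c (x, b)) (M.on []).ora (x.length ^ c + c)).flatten <+:
        bans act h h.length := by
      rw [key]; exact List.take_prefix _ _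
    have hdc : ∀ H, (M.on F).dc c (x, b) H = Ds f r (F, (x, b, H, [()])) := by
      intro H
      unfold RM.dc RM.ww SM.on
      simp only [hM, Nat.zero_mul, pow_zero, List.replicate_one]
    rw [hdc, ← h4]
    unfold Ds act1
    simp only [decide_eq_true_eq]
    rcases sim_fin h2 h3 hFA hpre hR with ⟨e1, _⟩ | ⟨m, hm, q, e1, e2, e3, e4⟩
    · rw [e1]
    · exfalso
      rw [key, List.take_of_length_le h6] at e2
      have e8 : bans act h (m + 1) = bans act h m ++ [h[m]] := bans_succ_true hm e3
      change _ = bans act h m at e2
      obtain ⟨v, hv⟩ := bans_prefix act h (m := m + 1) (m' := h.length) hm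
      rw [e8] at hv
      have e9 := congrArg List.length e2
      have e10 := congrArg List.length hv
      simp only [List.length_append, List.length_cons, List.length_nil] at e10
      omega

/-- **Main theorem on oracles of subexponential density.** -/
theorem main_sparse (c : ℕ) : ∃ L : Set (List Bool), InNEXP L ∧ ¬ InPNPSparse c L := by
  obtain ⟨L, h1, h2⟩ := exists_not_sbig c
  exact ⟨L, h1, fun h => h2 (sbig_of_sparse h)⟩

end Pool.Agent.H75C.SP
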