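import Pool.Agent.H75C.SP.Sem

/-!
# A language in `NEXP` that is not decided by machines with rounds and a small table
-/

namespace Pool.Agent.H75C.SP

open Pool.Agent.NPC Pool.Agent.H660R2.NX Pool.Agent.H75C.RD
open Pool.Agent.H75C.NX (nodup_allStr ZZ poly_ZZ strs strsB nodup_strs mem_strs length_strs
  poly_strsB poly_pow2 poly_take strsB_eq valB_zip dg poly_dg upoly_of_eval sz_str_le
  sz_replicate_unit KE KE_sound KE_complete inNEXP_KE poly_lt_two_pow)

attribute [local irreducible] unpair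

/-! ### Bounds -/

/-- A bound for the size of the first table. -/
noncomputable def bdA1 (M1 : SM) (l : ℕ) : ℕ :=
  2 ^ l * (4 * M1.pl.eval l + 4 * M1.PA.eval (M1.pl.eval l) + 4) + 1

/-- A bound for the size of the second table. -/
noncomputable def bdA2 (M : SM) (c l : ℕ) : ℕ :=
  2 ^ NN c l * (4 * M.pl.eval (NN c l) + 4 * M.PA.eval (M.pl.eval (NN c l)) + 4) + 1

theorem pb_bdA1 (M1 : SM) (c : ℕ) : PB c (bdA1 M1) := by
  unfold bdA1
  refine PB.add (PB.mul (pb_l2 c) (PB.add (PB.add ?_ ?_) (PB.const c 4))) (PB.const c 1)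
  · exact PB.mul (PB.const c 4) ((pb_l c).poly _)
  · exact PB.mul (PB.const c 4) (((pb_l c).poly _).poly _)

theorem pb_bdA2 (M : SM) (c : ℕ) : PB c (bdA2 M c) := by
  unfold bdA2
  refine PB.add (PB.mul (pb_NN2 c) (PB.add (PB.add ?_ ?_) (PB.const c 4))) (PB.const c 1)
  · exact PB.mul (PB.const c 4) ((pb_NN c).poly _)
  · exact PB.mul (PB.const c 4) (((pb_NN c).poly _).poly _)

theorem sz_of_lt {n s : ℕ} (h : n < 2 ^ s) : sz n ≤ 4 * s + 1 := by
  have h1 := sz_nat_le n
  have h2 : n.size ≤ s := Nat.size_le.2 h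
  omega

theorem sz_tau_le {M : SM} {c : ℕ} {a : ℕ → List Bool} {l : ℕ}
    (h : (M.tbl l).length ≤ 2 ^ l) :
    sz (tau M c a l) ≤ (l ^ c + c) * (4 * (l + (M.on []).ww c l + 1) + 2) + 4 * l + 7 := by
  unfold tau
  rw [sz_list_cons]
  have h1 : sz (M.tbl l).length ≤ 4 * (l + 1) + 1 :=
    sz_of_lt (h.trans_lt (Nat.pow_lt_pow_right (by norm_num) (by omega)))
  have h2 : sz (RD.tau (M.on (M.tbl l)) c a l) ≤
      (l ^ c + c) * (4 * (l + (M.on []).ww c l + 1) + 2) + 1 :=
    RD.sz_tau_le (M.on (M.tbl l)) c a l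
  have h3 : sz (prof (Z1 (a l) l) ((M.on (M.tbl l)).qs c) (M.on (M.tbl l)).ora (l ^ c + c)) ≤
      (l ^ c + c) * (4 * (l + (M.on []).ww c l + 1) + 2) + 1 := h2
  omega

theorem sz_rcs_le (M : RM) (c l : ℕ) : sz (RD.cs M c l) ≤
    KK c l * (4 * (nn c l + KK c l + 1 + ss c l + M.ww c (NN c l) + 1) + 2) + 1 := by
  refine sz_prof_le length_prof ?_
  intro m hm
  have h1 : m ≤ (ZL c l).length * 2 ^ M.ww c (NN c l) := by
    unfold RD.cs prof at hm
    rw [List.mem_map] at hm
    obtain ⟨i, _, rfl⟩ := hm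
    refine (List.sum_le_card_nsmul _ (2 ^ M.ww c (NN c l)) ?_).trans ?_
    · intro m hm
      rw [List.mem_map] at hm
      obtain ⟨z, hz, rfl⟩ := hm
      refine (List.length_filter_le _ _).trans ((length_qs _ _ _ _).trans ?_)
      rw [length_of_mem_ZL hz]
    · rw [List.length_map, smul_eq_mul]
  have h2 : (ZL c l).length * 2 ^ M.ww c (NN c l) ≤
      2 ^ (nn c l + KK c l + 1 + ss c l + M.ww c (NN c l)) := by
    rw [pow_add _ _ (M.ww c (NN c l))]
    refine Nat.mul_le_mul_right _ ((length_ZL_le c l).trans ?_)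
    rw [pow_add _ _ (ss c l)]
    exact Nat.mul_le_mul_left _ Nat.lt_two_pow_self.le
  exact (h1.trans h2).trans_lt (Nat.pow_lt_pow_right (by norm_num) (by omega))

/-- A polynomial bound for the size of the profile. -/
noncomputable def csB (M : SM) (c : ℕ) : Polynomial ℕ :=
  RD.csB (M.on []) c + 4 * M.pl.comp (NNP c) + 7

theorem tn_cs_lt (M : SM) (c l : ℕ) : tn (cs M c l) < 2 ^ (csB M c).eval l := by
  refine (tn_lt _).trans_le (Nat.pow_le_pow_right (by norm_num) ?_)
  unfold csB cs
  rw [sz_list_cons]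
  simp only [Polynomial.eval_add, Polynomial.eval_mul, Polynomial.eval_ofNat,
    Polynomial.eval_comp, NNP_eval, csB_eval]
  have h1 : (M.tbl (NN c l)).length < 2 ^ (M.pl.eval (NN c l) + 1) := by
    unfold SM.tbl
    refine (List.length_filter_le _ _).trans_lt ?_
    have := length_allStr (M.pl.eval (NN c l))
    omega
  have h2 := sz_of_lt h1
  have h3 := sz_rcs_le (M.on (M.tbl (NN c l))) c l
  have h4 : sz (prof (ZL c l) ((M.on (M.tbl (NN c l))).qs c) (M.on []).ora (KK c l)) ≤
      KK c l * (4 * (nn c l + KK c l + 1 + ss c l + (M.on []).ww c (NN c l) + 1) + 2) + 1 := h3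
  omega

/-! ### The raw verifier -/

/-- The context: the parameter in unary, the advice for the first machine, its profile. -/
abbrev CtxT : Type := List Unit × List Bool × List ℕ
/-- Certificates. -/
abbrev CertT : Type := EE × List Unit

/-- The raw verifier. -/
noncomputable def vraw (M M1 : SM) (c : ℕ) (v : List Bool) : Bool :=
  (unbits CtxT (unpair (unpair v).1).1).elim false (fun ctx =>
    (unbits CertT (unpair v).2).elim false (fun ct =>
      ver M M1 c ctx.1 ctx.2.1 ctx.2.2 (unpair (unpair v).1).2 ct.1 ct.2))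

theorem poly_vraw {M M1 : SM} (hQ : Poly M.Q) (hD : Poly M.D) (hV : Poly M.V)
    (hVA : Poly M.VA) (hQ1 : Poly M1.Q) (hD1 : Poly M1.D) (hV1 : Poly M1.V)
    (hVA1 : Poly M1.VA) (c : ℕ) : Poly (vraw M M1 c) := by
  unfold vraw
  have h0 : Poly (unbits CtxT) := poly_unbits
  have h0' : Poly (unbits CertT) := poly_unbits
  have h1 : Poly (fun v : List Bool => unbits CtxT (unpair (unpair v).1).1) :=
    h0.comp (by fun_prop)
  have h2 : Poly (fun p : List Bool × CtxT => unbits CertT (unpair p.1).2) :=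
    h0'.comp (by fun_prop)
  refine Poly.optElim h1 (by fun_prop) (Poly.optElim h2 (by fun_prop) ?_)
  exact poly_ver hQ hD hV hVA hQ1 hD1 hV1 hVA1 c
    (el := fun q : (List Bool × CtxT) × CertT => q.1.2.1)
    (a := fun q => q.1.2.2.1) (C := fun q => q.1.2.2.2) (x := fun q => (unpair (unpair q.1.1).1).2)
    (E := fun q => q.2.1) (pad := fun q => q.2.2) (by fun_prop)
    (by fun_prop) (by fun_prop) (by fun_prop) (by fun_prop) (by fun_prop)

theorem vraw_some {M M1 : SM} {c : ℕ} {ctx : CtxT} {x : List Bool} {ct : CertT} :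
    vraw M M1 c (pairBits (pairBits (bits ctx) x) (bits ct)) =
      ver M M1 c ctx.1 ctx.2.1 ctx.2.2 x ct.1 ct.2 := by
  unfold vraw
  rw [unpair_pairBits]
  simp only
  rw [unpair_pairBits]
  simp only
  rw [unbits_bits, unbits_bits]
  rfl

theorem vraw_cert {M M1 : SM} {c : ℕ} {ctx : CtxT} {x w : List Bool}
    (h : vraw M M1 c (pairBits (pairBits (bits ctx) x) w) = true) :
    ∃ ct : CertT, ver M M1 c ctx.1 ctx.2.1 ctx.2.2 x ct.1 ct.2 = true := by
  unfold vraw at h
  rw [unpair_pairBits] at h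
  simp only at h
  rw [unpair_pairBits] at h
  simp only at h
  rw [unbits_bits] at h
  simp only [Option.elim_some] at h
  cases hct : unbits CertT w with
  | none => rw [hct] at h; simp at h
  | some ct =>
    rw [hct] at h
    exact ⟨ct, h⟩

/-- The context. -/
def ctx0 (M1 : SM) (c : ℕ) (a1 : ℕ → List Bool) (l : ℕ) : CtxT :=
  (List.replicate l (), a1 l, tau M1 c a1 l)

theorem sz_ctx0_le {M1 : SM} {c l : ℕ} {a1 : ℕ → List Bool} (ha : (a1 l).length ≤ l ^ c + c)
    (h : (M1.tbl l).length ≤ 2 ^ l) :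
    sz (ctx0 M1 c a1 l) ≤ 8 * l + 4 * (l ^ c + c) +
      (l ^ c + c) * (4 * (l + (M1.on []).ww c l + 1) + 2) + 11 := by
  unfold ctx0
  have h1 := sz_replicate_unit l
  have h2 := sz_str_le ha
  have h3 := sz_tau_le (c := c) (a := a1) h
  simp only [sz_pair]
  omega

/-! ### The main argument -/

/-- The main argument for one parameter. -/
theorem contra {M M1 : SM} {c l : ℕ} {a a1 : ℕ → List Bool} {n0 n1 : ℕ}
    (hM : M.Ok c (KE c) a n0) (hM1 : M1.Ok c (Bset M c) a1 n1) (hn0 : n0 ≤ NN c l)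
    (hn1 : n1 ≤ l) {e : Code} {p : Polynomial ℕ}
    (he : IsCode e (fun v => [vraw M M1 c v]) p)
    (hcode : 2 * (bits (e, bits (ctx0 M1 c a1 l))).length + 1 ≤ nn c l)
    (hT : tn (cs M c l) < 2 ^ (2 ^ l)) (hs : ss c l ≤ 2 ^ nn c l)
    (hB : ∀ w : List Bool, ∀ x : List Bool, x.length = nn c l →
      w.length ≤ bdA1 M1 l + bd1 (M1.on []) c l + bdA2 M c l + bd2 (M.on []) c l +
        4 * 2 ^ (RRP M M1 c).eval l + 5 →
      2 * w.length + 1 + p.eval (pairBits (pairBits (bits (ctx0 M1 c a1 l)) x) w).length ≤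
        2 ^ (NN c l ^ (c + 3) + (c + 3))) : False := by
  set s := bits (ctx0 M1 c a1 l) with hs0
  set r : List Bool := List.replicate (nn c l - (2 * (bits (e, s)).length + 1)) false with hr
  set u := pairBits (bits (e, s)) r with hu
  have hul : u.length = nn c l := by
    rw [hu, length_pairBits, hr, List.length_replicate]
    omega
  have hyl : ∀ x : List Bool, x.length = nn c l → (pairBits u x).length = NN c l := by
    intro x hx
    rw [length_pairBits, hul, hx]
    unfold NN
    ring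
  have key : ∀ x : List Bool, x.length = nn c l →
      (pairBits u x ∈ KE c ↔ (x, true) ∈ (XL c l).zip (dgT (MT M c l) c l)) := by
    intro x hx
    constructor
    · intro h
      obtain ⟨w, hw⟩ := KE_sound he h
      obtain ⟨ct, hct⟩ := vraw_cert hw
      exact ver_sound hM hM1 hT hct
    · intro h
      obtain ⟨E, h1, ⟨h2, h3⟩, ⟨h4, h5⟩, ⟨h6, h7⟩, ⟨h8, h9⟩⟩ := ver_complete hM hM1 hT h
      refine KE_complete he
        (w := bits ((E, List.replicate (2 ^ (RRP M M1 c).eval l) ()) : CertT)) ?_ ?_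
      · rw [hs0, vraw_some]
        exact h1
      · rw [← hu, hyl x hx]
        refine hB _ x hx ?_
        rw [bits_length]
        obtain ⟨EA1, E1, EA2, E2⟩ := E
        simp only [sz_pair]
        have g1 : sz EA1 ≤ bdA1 M1 l := sz_cert_le h2 (h3.trans (hM1.cap l hn1))
        have g2 : sz E1 ≤ bd1 (M1.on []) c l := sz_cert_le h4 h5
        have g3 : sz EA2 ≤ bdA2 M c l := sz_cert_le h6 (h7.trans (hM.cap _ hn0))
        have g4 : sz E2 ≤ bd2 (M.on []) c l := by
          refine sz_cert_le h8 (h9.trans ?_)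
          exact Nat.mul_le_mul_left _ (Nat.mul_le_mul_right _ (length_ZL_le' c l))
        have g5 := sz_replicate_unit (2 ^ (RRP M M1 c).eval l)
        omega
  -- the pair of `u` and the true advice
  have hub : (u, a (NN c l)) ∈ UB c l := by
    rw [mem_UB]
    exact ⟨hul, hM.adv _⟩
  set pt := pat ((MT M c l).dc c) ((MT M c l).qs c) (MT M c l).ora (KK c l) (XL c l)
    (u, a (NN c l)) with hpt
  have hmem : pt ∈ patsT (MT M c l) c l := by
    unfold patsT
    exact List.mem_map.2 ⟨_, hub, rfl⟩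
  have hXlen : (XL c l).length = ss c l := by
    unfold XL
    rw [List.length_take, length_strs, min_eq_left hs]
  have hXnd : (XL c l).Nodup := (nodup_strs _).sublist (List.take_sublist _ _)
  obtain ⟨hd1, hd2⟩ := dgT_spec (MT M c l) c l
  apply hd2
  have heq : pt = dgT (MT M c l) c l := by
    apply List.ext_getElem
    · rw [hpt]
      unfold pat
      rw [List.length_map, hXlen, hd1]
    · intro i h1 h2
      have h1' : i < (XL c l).length := by
        rw [hpt] at h1
        unfold pat at h1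
        rwa [List.length_map] at h1
      have hxl : ((XL c l)[i]).length = nn c l := mem_XL (List.getElem_mem h1')
      have h3 : pt[i] = fin ((MT M c l).dc c) ((MT M c l).qs c) (MT M c l).ora (KK c l)
          (pairBits u (XL c l)[i], a (NN c l)) := by
        simp only [hpt, pat, List.getElem_map]
      have h4 := hM.dec (pairBits u (XL c l)[i])
      rw [hyl _ hxl] at h4
      have h5 : fin ((MT M c l).dc c) ((MT M c l).qs c) (MT M c l).ora (KK c l)
          (pairBits u (XL c l)[i], a (NN c l)) = true ↔ pairBits u (XL c l)[i] ∈ KE c := h4.symm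
      rw [h3, Bool.eq_iff_iff, h5, key _ hxl, List.mem_iff_getElem]
      constructor
      · rintro ⟨j, hj, h⟩
        rw [List.getElem_zip, Prod.mk.injEq] at h
        have := (List.Nodup.getElem_inj_iff hXnd).1 h.1
        subst this
        exact h.2
      · intro h
        refine ⟨i, by rw [List.length_zip]; omega, ?_⟩
        rw [List.getElem_zip, h]
  rw [← heq]
  exact hmem

theorem exists_not_sbig (c : ℕ) : ∃ L, InNEXP L ∧ ¬ SBig c L := by
  by_contra hcon
  push Not at hcon
  obtain ⟨M, a, n0, hM⟩ := hcon (KE c) (inNEXP_KE c)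
  obtain ⟨M1, a1, n1, hM1⟩ := hcon (Bset M c) (inNEXP_Bset hM.hQ hM.hV hM.hVA c)
  obtain ⟨e, p, he⟩ := U_complete (polyTime_of_poly
    (poly_vraw hM.hQ hM.hD hM.hV hM.hVA hM1.hQ hM1.hD hM1.hV hM1.hVA c))
  -- bounds
  set wb : ℕ → ℕ := fun l => bdA1 M1 l + bd1 (M1.on []) c l + bdA2 M c l + bd2 (M.on []) c l +
    4 * 2 ^ (RRP M M1 c).eval l + 5 with hwb
  set sb : ℕ → ℕ := fun l => 8 * l + 4 * (l ^ c + c) +
      (l ^ c + c) * (4 * (l + (M1.on []).ww c l + 1) + 2) + 11 with hsb
  set W : ℕ → ℕ := fun l => 2 * wb l + 1 + p.eval (2 * (2 * sb l + 1 + nn c l) + 1 + wb l) with hW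
  have hRR : PB c (fun l => 2 ^ (RRP M M1 c).eval l) := by
    refine PB.mono (g := fun l => 2 ^ l * 2 ^ nn c l * 2 ^ KK c l * 2 ^ ss c l *
      2 ^ (M1.on []).ww c l * 2 ^ (M.on []).ww c (NN c l)) ?_ ?_
    · exact (((((pb_l2 c).mul (pb_nn2 c)).mul (pb_KK2 c)).mul (pb_ss2 c)).mul
        (pb_ww2' (M1.on []) c)).mul (pb_ww2 (M.on []) c)
    · intro l _
      rw [RRP_eval, pow_add, pow_add, pow_add, pow_add, pow_add]
  have hwbP : PB c wb :=
    (((((pb_bdA1 M1 c).add (pb_bd1 (M1.on []) c)).add (pb_bdA2 M c)).add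
      (pb_bd2 (M.on []) c)).add ((PB.const c 4).mul hRR)).add (PB.const c 5)
  have hww1 : PB c (fun l => (M1.on []).ww c l) := (pb_ww2' (M1.on []) c).of_pow2
  have hsbP : PB c sb :=
    ((((PB.const c 8).mul (pb_l c)).add ((PB.const c 4).mul (pb_lc c))).add
      ((pb_lc c).mul (((PB.const c 4).mul (((pb_l c).add hww1).add (PB.const c 1))).add
        (PB.const c 2)))).add (PB.const c 11)
  have hWP : PB c W := by
    refine PB.add (PB.add ((PB.const c 2).mul hwbP) (PB.const c 1)) (PB.poly ?_ p)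
    exact PB.add (PB.add ((PB.const c 2).mul (PB.add (PB.add ((PB.const c 2).mul hsbP)
      (PB.const c 1)) (pb_nn c))) (PB.const c 1)) hwbP
  obtain ⟨k, hk⟩ := hWP
  obtain ⟨l1, hl1⟩ := poly_lt_two_pow (csB M c)
  obtain ⟨l2, hl2⟩ := poly_lt_two_pow (ssP c)
  set C := sz e with hC
  set l := 1000 + c + k + l1 + l2 + C + M1.k + n0 + n1 with hl
  have hl0 : 1 ≤ l := by omega
  have hcap1 := hM1.cap l (by omega)
  refine contra (l := l) hM hM1 ?_ (by omega) he ?_ ?_ ?_ ?_
  · have := le_NN (c := c) hl0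
    omega
  · -- the code is short
    rw [bits_length, sz_pair]
    have h1 := sz_ctx0_le (M1 := M1) (hM1.adv l) hcap1
    rw [← bits_length] at h1
    have h2 := sz_str_le h1
    have h4 : 1 ≤ l ^ c := Nat.one_le_pow _ _ hl0
    have h5 : 1000 ≤ l := by omega
    have h6 : c ≤ l ^ c := by
      rcases Nat.eq_zero_or_pos c with h0 | h0
      · rw [h0]; omega
      · calc c ≤ l := by omega
          _ = l ^ 1 := (pow_one l).symm
          _ ≤ l ^ c := Nat.pow_le_pow_right hl0 h0
    have h7 : C ≤ l := by omega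
    have h8 : M1.k ≤ l := by omega
    -- the square
    set s := l ^ c with hs
    have e1 : (M1.on []).ww c l ≤ l * (s + 1) := by
      unfold RM.ww
      exact Nat.mul_le_mul_right _ h8
    have e2 : (s + c) * (4 * (l + (M1.on []).ww c l + 1) + 2) ≤ 40 * (s * s * l) := by
      have e3 : s + c ≤ 2 * s := by omega
      have e4 : 4 * (l + (M1.on []).ww c l + 1) + 2 ≤ 20 * (s * l) := by
        have e5 : l ≤ s * l := Nat.le_mul_of_pos_left _ (by omega)
        have e6 : l * (s + 1) = s * l + l := by ring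
        omega
      calc (s + c) * (4 * (l + (M1.on []).ww c l + 1) + 2) ≤ (2 * s) * (20 * (s * l)) :=
            Nat.mul_le_mul e3 e4
        _ = 40 * (s * s * l) := by ring
    have e7 : nn c l = s * s * l * l * l * l := by
      unfold nn
      rw [hs, pow_add, Nat.mul_comm 2 c, pow_mul]
      ring
    have e8 : s ≤ s * s := Nat.le_mul_of_pos_left _ (by omega)
    have e9 : l ≤ s * s * l := Nat.le_mul_of_pos_left _ (by nlinarith)
    have e10 : s * s ≤ s * s * l := Nat.le_mul_of_pos_right _ (by omega)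
    have e11 : s * s * l * 1000 ≤ s * s * l * l := Nat.mul_le_mul_left _ h5
    have e12 : s * s * l * l ≤ s * s * l * l * l := Nat.le_mul_of_pos_right _ (by omega)
    have e13 : s * s * l * l * l ≤ s * s * l * l * l * l := Nat.le_mul_of_pos_right _ (by omega)
    have e14 : 1000 ≤ s * s * l := by omega
    rw [e7]
    omega
  · -- the profile is not too large
    refine (tn_cs_lt M c l).trans_le (Nat.pow_le_pow_right (by norm_num) ?_)
    exact (hl1 l (by omega)).le
  · have := hl2 l (by omega)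
    rw [ssP_eval] at this
    exact this.le.trans (Nat.pow_le_pow_right (by norm_num) (le_nn hl0))
  · intro w x hx hw
    have h1 : (pairBits (pairBits (bits (ctx0 M1 c a1 l)) x) w).length ≤
        2 * (2 * sb l + 1 + nn c l) + 1 + wb l := by
      rw [length_pairBits, length_pairBits, hx]
      have := sz_ctx0_le (M1 := M1) (hM1.adv l) hcap1
      rw [← bits_length] at this
      have h3 : w.length ≤ wb l := hw
      have h4 : (bits (ctx0 M1 c a1 l)).length ≤ sb l := this
      omega
    have h2 := eval_mono p h1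
    have h3 : w.length ≤ wb l := hw
    have h4 : 2 * w.length + 1 + p.eval (pairBits (pairBits (bits (ctx0 M1 c a1 l)) x) w).length ≤
        W l := by
      have : W l = 2 * wb l + 1 + p.eval (2 * (2 * sb l + 1 + nn c l) + 1 + wb l) := rfl
      omega
    refine h4.trans ((hk l hl0).trans ?_)
    unfold LL
    rw [← pow_mul]
    refine Nat.pow_le_pow_right (by norm_num) ?_
    have h5 : k ≤ NN c l := by
      have := le_nn (c := c) hl0
      unfold NN
      omega
    have h6 : NN c l ≤ NN c l ^ 2 := by nlinarith [four_le_NN (c := c) hl0]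
    calc NN c l ^ (c + 1) * k ≤ NN c l ^ (c + 1) * NN c l ^ 2 :=
          Nat.mul_le_mul_left _ (h5.trans h6)
      _ = NN c l ^ (c + 3) := by rw [← pow_add]
      _ ≤ _ := by omega

end Pool.Agent.H75C.SP
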