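import Pool.Agent.H75C.RD.Hard

/-!
# Machines with rounds and with a table of an oracle with few elements
-/

namespace Pool.Agent.H75C.SP

open Pool.Agent.NPC Pool.Agent.H660R2.NX Pool.Agent.H75C.RD
open Pool.Agent.H75C.NX (nodup_allStr ZZ poly_ZZ strs strsB nodup_strs mem_strs length_strs poly_strsB poly_pow2
  poly_take strsB_eq valB_zip dg poly_dg upoly_of_eval sz_str_le)

attribute [local irreducible] unpair

/-- A machine with rounds of queries to one oracle, given by `V`, and with a table of all elements of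
length at most `pl(n)` of another oracle, given by `VA`. -/
structure SM where
  Q : List (List Bool) × (List Bool × List Bool × List (List Bool) × List Unit) →
    List (List Bool)
  D : List (List Bool) × (List Bool × List Bool × List (List Bool) × List Unit) → Bool
  V : List Bool × List Bool → Bool
  p : Polynomial ℕ
  P : Polynomial ℕ
  k : ℕ
  VA : List Bool × List Bool → Bool
  pl : Polynomial ℕ
  PA : Polynomial ℕ

/-- The machine with the table `F`. -/
def SM.on (M : SM) (F : List (List Bool)) : RM :=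
  ⟨fun t => M.Q (F, t), fun t => M.D (F, t), M.V, M.p, M.P, M.k⟩

/-- The second oracle. -/
def SM.oraA (M : SM) (q : List Bool) : Bool :=
  (allStr (M.PA.eval q.length)).any (fun w => M.VA (q, w))

/-- The table. -/
def SM.tbl (M : SM) (n : ℕ) : List (List Bool) := (allStr (M.pl.eval n)).filter M.oraA

/-- The machine decides `L` with the advice `a`, and its tables are small for `n ≥ n0`. -/
structure SM.Ok (M : SM) (c : ℕ) (L : Set (List Bool)) (a : ℕ → List Bool) (n0 : ℕ) : Prop where
  hQ : Poly M.Q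
  hD : Poly M.D
  hV : Poly M.V
  hVA : Poly M.VA
  hl : ∀ q w, M.V (q, w) = true → w.length ≤ M.P.eval q.length
  hlA : ∀ q w, M.VA (q, w) = true → w.length ≤ M.PA.eval q.length
  invQ : ∀ F F' t, (∀ q, q ∈ F ↔ q ∈ F') → M.Q (F, t) = M.Q (F', t)
  invD : ∀ F F' t, (∀ q, q ∈ F ↔ q ∈ F') → M.D (F, t) = M.D (F', t)
  adv : ∀ n, (a n).length ≤ n ^ c + c
  cap : ∀ n, n0 ≤ n → (M.tbl n).length ≤ 2 ^ n
  dec : ∀ x, x ∈ L ↔ (M.on (M.tbl x.length)).dc c (x, a x.length)
    (hist ((M.on (M.tbl x.length)).qs c (x, a x.length)) (M.on []).ora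
      (x.length ^ c + c)) = true

/-- Some machine with rounds and with a table decides `L`. -/
def SBig (c : ℕ) (L : Set (List Bool)) : Prop :=
  ∃ (M : SM) (a : ℕ → List Bool) (n0 : ℕ), M.Ok c L a n0

theorem ora_on (M : SM) (F : List (List Bool)) : (M.on F).ora = (M.on []).ora := rfl

theorem on_eq {M : SM} {c : ℕ} {L : Set (List Bool)} {a : ℕ → List Bool} {n0 : ℕ}
    (hM : M.Ok c L a n0) {F F' : List (List Bool)} (h : ∀ q, q ∈ F ↔ q ∈ F') :
    M.on F = M.on F' := by
  unfold SM.on
  have h1 : (fun t => M.Q (F, t)) = (fun t => M.Q (F', t)) := funext fun t => hM.invQ F F' t h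
  have h2 : (fun t => M.D (F, t)) = (fun t => M.D (F', t)) := funext fun t => hM.invD F F' t h
  rw [h1, h2]

theorem nodup_tbl (M : SM) (n : ℕ) : (M.tbl n).Nodup := (nodup_allStr _).filter _

theorem mem_tbl {M : SM} {n : ℕ} {q : List Bool} :
    q ∈ M.tbl n ↔ q.length ≤ M.pl.eval n ∧ M.oraA q = true := by
  unfold SM.tbl
  rw [List.mem_filter, mem_allStr]

/-! ### The test of the table -/

/-- The test of a list of certified elements of the second oracle. -/
def chkA (M : SM) (n C : ℕ) (EA : List (List Bool × List Bool)) : Bool :=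
  EA.all (fun e => M.VA e && (decide (e.1.length ≤ M.pl.eval n) &&
    decide ((EA.filter (fun e' => decide (e'.1 = e.1))).length = 1))) && decide (EA.length = C)

theorem chkA_sound {M : SM} (hlA : ∀ q w, M.VA (q, w) = true → w.length ≤ M.PA.eval q.length)
    {n : ℕ} {EA : List (List Bool × List Bool)} (h : chkA M n (M.tbl n).length EA = true) :
    ∀ q, q ∈ EA.map Prod.fst ↔ q ∈ M.tbl n := by
  unfold chkA at h
  rw [Bool.and_eq_true, List.all_eq_true, decide_eq_true_eq] at h
  obtain ⟨h1, h2⟩ := h
  simp only [Bool.and_eq_true, decide_eq_true_eq] at h1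
  have hnd : (EA.map Prod.fst).Nodup := by
    rw [List.nodup_iff_count_le_one]
    intro q
    by_cases hq : q ∈ EA.map Prod.fst
    · rw [List.mem_map] at hq
      obtain ⟨e, he, rfl⟩ := hq
      have h3 := (h1 e he).2.2
      rw [List.count, List.countP_map, List.countP_eq_length_filter]
      have h4 : EA.filter ((fun x => x == e.1) ∘ Prod.fst) =
          EA.filter (fun e' => decide (e'.1 = e.1)) := by
        apply List.filter_congr
        intro e' _
        simp only [Function.comp_apply, beq_eq_decide]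
      rw [h4, h3]
    · rw [List.count_eq_zero_of_not_mem hq]
      omega
  have hsub : (EA.map Prod.fst).toFinset ⊆ (M.tbl n).toFinset := by
    intro q hq
    rw [List.mem_toFinset, List.mem_map] at hq
    obtain ⟨⟨q', w⟩, he, rfl⟩ := hq
    obtain ⟨h3, h4, _⟩ := h1 _ he
    rw [List.mem_toFinset, mem_tbl]
    refine ⟨h4, ?_⟩
    unfold SM.oraA
    rw [List.any_eq_true]
    exact ⟨w, mem_allStr.2 (hlA _ _ h3), h3⟩
  have heq : (EA.map Prod.fst).toFinset = (M.tbl n).toFinset := by
    apply Finset.eq_of_subset_of_card_le hsub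
    rw [List.toFinset_card_of_nodup hnd, List.toFinset_card_of_nodup (nodup_tbl M n),
      List.length_map, h2]
  intro q
  rw [← List.mem_toFinset, heq, List.mem_toFinset]

theorem chkA_complete (M : SM) (n : ℕ) : ∃ EA : List (List Bool × List Bool),
    chkA M n (M.tbl n).length EA = true ∧
    (∀ e ∈ EA, e.1.length ≤ M.pl.eval n ∧ e.2.length ≤ M.PA.eval (M.pl.eval n)) ∧
    EA.length = (M.tbl n).length := by
  classical
  have hw : ∀ q, ∃ w : List Bool, M.oraA q = true → M.VA (q, w) = true ∧
      w.length ≤ M.PA.eval q.length := by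
    intro q
    by_cases hq : M.oraA q = true
    · have hq' := hq
      unfold SM.oraA at hq'
      rw [List.any_eq_true] at hq'
      obtain ⟨w, hw, hw'⟩ := hq'
      exact ⟨w, fun _ => ⟨hw', mem_allStr.1 hw⟩⟩
    · exact ⟨[], fun h => absurd h hq⟩
  choose wit hwit using hw
  set EA := (M.tbl n).map (fun q => (q, wit q)) with hEA
  have hfst : EA.map Prod.fst = M.tbl n := by
    rw [hEA, List.map_map]
    exact List.map_id'' (fun _ => rfl) _
  refine ⟨EA, ?_, ?_, by rw [hEA, List.length_map]⟩
  · unfold chkA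
    rw [Bool.and_eq_true, List.all_eq_true, decide_eq_true_eq]
    refine ⟨?_, by rw [hEA, List.length_map]⟩
    intro e he
    have he' := he
    rw [hEA, List.mem_map] at he'
    obtain ⟨q, hq, rfl⟩ := he'
    rw [mem_tbl] at hq
    simp only [Bool.and_eq_true, decide_eq_true_eq]
    refine ⟨(hwit q hq.2).1, hq.1, ?_⟩
    have h3 : (EA.map Prod.fst).count q = 1 := by
      rw [hfst]
      exact List.count_eq_one_of_mem (nodup_tbl M n) (mem_tbl.2 hq)
    rw [List.count, List.countP_map, List.countP_eq_length_filter] at h3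
    rw [← h3]
    congr 1
    apply List.filter_congr
    intro e' _
    simp only [Function.comp_apply, beq_eq_decide]
  · intro e he
    rw [hEA, List.mem_map] at he
    obtain ⟨q, hq, rfl⟩ := he
    rw [mem_tbl] at hq
    exact ⟨hq.1, (hwit q hq.2).2.trans (eval_mono _ hq.1)⟩

/-! ### The versions with padding -/

/-- The second oracle, with padding. -/
def SM.oraAP (M : SM) (pad : List Unit) (q : List Bool) : Bool :=
  (allB (M.PA.eval q.length) pad).any (fun w => M.VA (q, w))

/-- The table, with padding. -/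
def SM.tblP (M : SM) (n : ℕ) (pad : List Unit) : List (List Bool) :=
  (allB (M.pl.eval n) pad).filter (M.oraAP pad)

theorem tblP_eq {M : SM} {n : ℕ} {pad : List Unit} (h1 : 2 ^ M.pl.eval n ≤ pad.length)
    (h2 : 2 ^ M.PA.eval (M.pl.eval n) ≤ pad.length) : M.tblP n pad = M.tbl n := by
  unfold SM.tblP SM.tbl
  rw [allB_eq h1]
  refine List.filter_congr fun q hq => ?_
  rw [mem_allStr] at hq
  unfold SM.oraAP SM.oraA
  rw [allB_eq ((Nat.pow_le_pow_right (by norm_num) (eval_mono _ hq)).trans h2)]

/-! ### Polynomial time -/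

section PT

variable {α : Type} [TEnc α]

theorem poly_tblP {M : SM} (hVA : Poly M.VA) {n : α → ℕ} {pad : α → List Unit} (hn : UPoly n)
    (hpad : Poly pad) : Poly (fun a => M.tblP (n a) (pad a)) := by
  have h1 : Poly (fun a => allB (M.pl.eval (n a)) (pad a)) := poly_allB (UPoly.eval hn M.pl) hpad
  have h2 : Poly (fun p : α × List Bool => allB (M.PA.eval p.2.length) (pad p.1)) :=
    poly_allB (UPoly.eval (UPoly.length (NPC.Poly.snd NPC.Poly.id)) M.PA)
      (hpad.comp (NPC.Poly.fst NPC.Poly.id))
  have h3 : Poly (fun p : α × List Bool => M.oraAP (pad p.1) p.2) := by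
    unfold SM.oraAP
    exact NPC.Poly.any h2 (hVA.comp (f := fun p : (α × List Bool) × List Bool => (p.1.2, p.2))
      (by fun_prop))
  unfold SM.tblP
  exact NPC.Poly.filter h1 h3

theorem poly_chkA {M : SM} (hVA : Poly M.VA) {n : α → ℕ} {C : α → ℕ}
    {EA : α → List (List Bool × List Bool)} (hn : UPoly n) (hC : Poly C) (hE : Poly EA) :
    Poly (fun a => chkA M (n a) (C a) (EA a)) := by
  have h1 : Poly (fun a => M.pl.eval (n a)) := (UPoly.eval hn M.pl).toPoly
  have h2 : Poly (fun p : (α × (List Bool × List Bool)) × (List Bool × List Bool) =>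
      decide (p.2.1 = p.1.2.1)) := NPC.Poly.dec_eq (by fun_prop) (by fun_prop)
  have h3 : Poly (fun p : α × (List Bool × List Bool) =>
      ((EA p.1).filter (fun e' => decide (e'.1 = p.2.1))).length) :=
    NPC.Poly.length (NPC.Poly.filter (hE.comp (NPC.Poly.fst NPC.Poly.id)) h2)
  unfold chkA
  refine NPC.Poly.and (NPC.Poly.all hE (NPC.Poly.and (hVA.comp (NPC.Poly.snd NPC.Poly.id))
    (NPC.Poly.and ?_ ?_))) (NPC.Poly.dec_eq (NPC.Poly.length hE) hC)
  · exact NPC.Poly.decide_le (by fun_prop) (h1.comp (NPC.Poly.fst NPC.Poly.id))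
  · exact NPC.Poly.dec_eq h3 (NPC.Poly.const _)

theorem poly_qsPF {M : SM} (hQ : Poly M.Q) (c : ℕ) {F : α → List (List Bool)}
    {pad : α → List Unit} {z : α → List Bool × List Bool} {H : α → List (List Bool)}
    (hF : Poly F) (hpad : Poly pad) (hz : Poly z) (hH : Poly H) :
    Poly (fun a => (M.on (F a)).qsP c (pad a) (z a) (H a)) := by
  have h0 : UPoly (fun a => (z a).1.length) := UPoly.length (NPC.Poly.fst hz)
  have h1 : Poly (fun a => 2 ^ (M.on []).ww c (z a).1.length) :=
    poly_pow2 (upoly_ww (M.on []) c h0)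
  have h2 : Poly (fun a => (pad a).take (2 ^ (M.on []).ww c (z a).1.length)) := poly_take hpad h1
  have h3 : Poly (fun a => M.Q (F a, ((z a).1, (z a).2, H a,
      (pad a).take (2 ^ (M.on []).ww c (z a).1.length)))) :=
    hQ.comp (NPC.Poly.pair hF (NPC.Poly.pair (NPC.Poly.fst hz) (NPC.Poly.pair (NPC.Poly.snd hz)
      (NPC.Poly.pair hH h2))))
  have h4 : Poly (fun a => min (2 ^ (M.on []).ww c (z a).1.length) (pad a).length) :=
    Poly.min h1 (NPC.Poly.length hpad)
  have h5 : Poly (fun a => M.p.eval (z a).1.length) := (UPoly.eval h0 M.p).toPoly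
  have h6 : Poly (fun a => ((M.Q (F a, ((z a).1, (z a).2, H a,
      (pad a).take (2 ^ (M.on []).ww c (z a).1.length)))).take
      (min (2 ^ (M.on []).ww c (z a).1.length) (pad a).length)).filter
      (fun q => decide (q.length ≤ M.p.eval (z a).1.length))) := by
    refine NPC.Poly.filter (poly_take h3 h4) ?_
    exact NPC.Poly.decide_le (by fun_prop) (h5.comp (NPC.Poly.fst NPC.Poly.id))
  exact h6

theorem poly_dcPF {M : SM} (hD : Poly M.D) (c : ℕ) {F : α → List (List Bool)}
    {pad : α → List Unit} {z : α → List Bool × List Bool} {H : α → List (List Bool)}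
    (hF : Poly F) (hpad : Poly pad) (hz : Poly z) (hH : Poly H) :
    Poly (fun a => (M.on (F a)).dcP c (pad a) (z a) (H a)) := by
  have h0 : UPoly (fun a => (z a).1.length) := UPoly.length (NPC.Poly.fst hz)
  have h1 : Poly (fun a => 2 ^ (M.on []).ww c (z a).1.length) :=
    poly_pow2 (upoly_ww (M.on []) c h0)
  have h2 : Poly (fun a => (pad a).take (2 ^ (M.on []).ww c (z a).1.length)) := poly_take hpad h1
  exact hD.comp (NPC.Poly.pair hF (NPC.Poly.pair (NPC.Poly.fst hz) (NPC.Poly.pair
    (NPC.Poly.snd hz) (NPC.Poly.pair hH h2))))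

theorem poly_profPF {M : SM} (hQ : Poly M.Q) (c : ℕ) {F : α → List (List Bool)}
    {pad : α → List Unit} {Z : α → List (List Bool × List Bool)} {o : α → List Bool → Bool}
    {R : α → ℕ} (hF : Poly F) (hpad : Poly pad) (hZ : Poly Z)
    (ho : Poly (fun p : α × List Bool => o p.1 p.2)) (hR : UPoly R) :
    Poly (fun a => prof (Z a) ((M.on (F a)).qsP c (pad a)) (o a) (R a)) := by
  obtain ⟨W, hW⟩ := hpad.sz_le
  refine poly_prof (qf := fun a => (M.on (F a)).qsP c (pad a)) (W := W) hZ ?_ ho hR ?_
  · exact poly_qsPF hQ c (F := fun p : α × (List Bool × List Bool) × List (List Bool) => F p.1)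
      (pad := fun p => pad p.1) (z := fun p => p.2.1) (H := fun p => p.2.2)
      (hF.comp (NPC.Poly.fst NPC.Poly.id)) (hpad.comp (NPC.Poly.fst NPC.Poly.id))
      (by fun_prop) (by fun_prop)
  · intro a z H
    refine (length_qsP (M.on (F a)) c _ z H).trans ?_
    have := length_lt_sz (pad a)
    have := hW a
    omega

theorem poly_histPF {M : SM} (hQ : Poly M.Q) (c : ℕ) {F : α → List (List Bool)}
    {pad : α → List Unit} {z : α → List Bool × List Bool} {o : α → List Bool → Bool}
    {R : α → ℕ} (hF : Poly F) (hpad : Poly pad) (hz : Poly z)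
    (ho : Poly (fun p : α × List Bool => o p.1 p.2)) (hR : UPoly R) :
    Poly (fun a => hist ((M.on (F a)).qsP c (pad a) (z a)) (o a) (R a)) := by
  obtain ⟨W, hW⟩ := hpad.sz_le
  refine poly_hist (qf := fun a => (M.on (F a)).qsP c (pad a) (z a)) (W := W) ?_ ho hR ?_
  · exact poly_qsPF hQ c (F := fun p : α × List (List Bool) => F p.1)
      (pad := fun p => pad p.1) (z := fun p => z p.1) (H := fun p => p.2)
      (hF.comp (NPC.Poly.fst NPC.Poly.id)) (hpad.comp (NPC.Poly.fst NPC.Poly.id))
      (hz.comp (NPC.Poly.fst NPC.Poly.id)) (by fun_prop)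
  · intro a H
    refine (length_qsP (M.on (F a)) c _ _ H).trans ?_
    have := length_lt_sz (pad a)
    have := hW a
    omega

theorem poly_finPF {M : SM} (hQ : Poly M.Q) (hD : Poly M.D) (hV : Poly M.V) (c : ℕ)
    {F : α → List (List Bool)} {pad : α → List Unit} {z : α → List Bool × List Bool}
    {E : α → List (List Bool × List Bool)} {R : α → ℕ} (hF : Poly F)
    (hpad : Poly pad) (hz : Poly z) (hE : Poly E) (hR : UPoly R) :
    Poly (fun a => fin ((M.on (F a)).dcP c (pad a)) ((M.on (F a)).qsP c (pad a))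
      (orc M.V (E a)) (R a) (z a)) := by
  unfold fin
  refine poly_dcPF hD c hF hpad hz
    (poly_histPF hQ c hF hpad hz (o := fun a => orc M.V (E a)) ?_ hR)
  exact poly_orc hV (hE.comp (NPC.Poly.fst NPC.Poly.id)) (NPC.Poly.snd NPC.Poly.id)

end PT

end Pool.Agent.H75C.SP
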