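import Pool.Agent.H75C.SP.Mach

/-!
# The language of the bits of the profile, and the verifier for the diagonal language
-/

namespace Pool.Agent.H75C.SP

open Pool.Agent.NPC Pool.Agent.H660R2.NX Pool.Agent.H75C.RD
open Pool.Agent.H75C.NX (nodup_allStr ZZ poly_ZZ strs strsB nodup_strs mem_strs length_strs poly_strsB poly_pow2
  poly_take strsB_eq valB_zip dg poly_dg upoly_of_eval sz_str_le)

attribute [local irreducible] unpair

/-! ### The language of the bits of the profile -/

/-- The profile of the machine `M`. -/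
def cs (M : SM) (c l : ℕ) : List ℕ :=
  (M.tbl (NN c l)).length ::
    prof (ZL c l) ((M.on (M.tbl (NN c l))).qs c) (M.on []).ora (KK c l)

/-- The bits of the profile. -/
def Bset (M : SM) (c : ℕ) : Set (List Bool) :=
  {z | (z, true) ∈ (strs z.length).zip (tn (cs M c z.length)).bits}

/-- The profile computed with padding. -/
def csP (M : SM) (c l : ℕ) (pad : List Unit) : List ℕ :=
  (M.tblP (NN c l) pad).length ::
    prof (ZZ (UP c l pad) (XP c l pad)) ((M.on (M.tblP (NN c l) pad)).qsP c pad)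
      ((M.on []).oraP pad) (KK c l)

theorem csP_eq {M : SM} {c l : ℕ} {pad : List Unit}
    (h1 : 2 ^ nn c l ≤ pad.length) (h2 : 2 ^ KK c l ≤ pad.length)
    (h3 : 2 ^ (M.on []).ww c (NN c l) ≤ pad.length)
    (h4 : 2 ^ M.P.eval (M.p.eval (NN c l)) ≤ pad.length)
    (h5 : 2 ^ M.pl.eval (NN c l) ≤ pad.length)
    (h6 : 2 ^ M.PA.eval (M.pl.eval (NN c l)) ≤ pad.length) : csP M c l pad = cs M c l := by
  unfold csP cs
  rw [UP_eq h1 h2, XP_eq h1, tblP_eq h5 h6]
  congr 1
  refine prof_congr' (Z := ZL c l) ?_ ?_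
  · intro z hz H
    exact qsP_eq (M := M.on (M.tbl (NN c l))) (by rw [length_of_mem_ZL hz]; exact h3) H
  · intro z hz i _ q hq
    apply oraP_eq
    have h7 := length_of_mem_qs hq
    rw [length_of_mem_ZL hz] at h7
    exact (Nat.pow_le_pow_right (by norm_num) (eval_mono M.P h7)).trans h4

theorem poly_csP {α : Type} [TEnc α] {M : SM} (hQ : Poly M.Q) (hV : Poly M.V)
    (hVA : Poly M.VA) {l : α → ℕ} {pad : α → List Unit} (hl : UPoly l) (hpad : Poly pad)
    (c : ℕ) : Poly (fun a => csP M c (l a) (pad a)) := by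
  have h1 := poly_XP hl hpad c
  have h2 := poly_UP hl hpad c
  have h3 := poly_tblP hVA (upoly_NN hl c) hpad
  unfold csP
  refine NPC.Poly.cons (NPC.Poly.length h3) ?_
  exact poly_profPF hQ c h3 hpad (poly_ZZ h2 h1)
    (poly_oraP (M := M.on []) hV (hpad.comp (NPC.Poly.fst NPC.Poly.id))
      (NPC.Poly.snd NPC.Poly.id)) (upoly_KK hl c)

/-- The exponent of the padding needed for the bits of the profile. -/
noncomputable def RBP (M : SM) (c : ℕ) : Polynomial ℕ :=
  Polynomial.X + nnP c + KKP c + Polynomial.C M.k * (NNP c ^ c + 1) + (M.P.comp M.p).comp (NNP c) +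
    M.pl.comp (NNP c) + (M.PA.comp M.pl).comp (NNP c)

theorem RBP_eval (M : SM) (c l : ℕ) :
    (RBP M c).eval l = l + nn c l + KK c l + (M.on []).ww c (NN c l) +
      M.P.eval (M.p.eval (NN c l)) + M.pl.eval (NN c l) + M.PA.eval (M.pl.eval (NN c l)) := by
  simp [RBP, nnP_eval, KKP_eval, NNP_eval, Polynomial.eval_comp, RM.ww, SM.on]

/-- The verifier for the bits of the profile: the certificate is the padding. -/
noncomputable def VB (M : SM) (c : ℕ) (v : List Bool) : Bool :=
  decide (2 ^ (RBP M c).eval (unpair v).1.length ≤ ((unpair v).2.map (fun _ => ())).length) &&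
  decide (((unpair v).1, true) ∈ (strsB (unpair v).1.length ((unpair v).2.map (fun _ => ()))).zip
    (tn (csP M c (unpair v).1.length ((unpair v).2.map (fun _ => ())))).bits)

theorem poly_VB {M : SM} (hQ : Poly M.Q) (hV : Poly M.V) (hVA : Poly M.VA) (c : ℕ) :
    Poly (VB M c) := by
  have h0 : Poly (fun v : List Bool => (unpair v).1) := by fun_prop
  have h1 : UPoly (fun v : List Bool => (unpair v).1.length) := UPoly.length h0
  have h2 : Poly (fun v : List Bool => (unpair v).2.map (fun _ => ())) := by fun_prop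
  have h3 : Poly (fun v : List Bool => 2 ^ (RBP M c).eval (unpair v).1.length) :=
    poly_pow2 (UPoly.eval h1 _)
  have h4 := poly_strsB h1 h2
  have h5 := NPC.Poly.natBits (poly_tn.comp (poly_csP hQ hV hVA h1 h2 c))
  unfold VB
  refine NPC.Poly.and (NPC.Poly.decide_le h3 (NPC.Poly.length h2)) ?_
  exact NPC.Poly.dec_mem (NPC.Poly.pair h0 (NPC.Poly.const true)) (NPC.Poly.zip h4 h5)

theorem inNEXP_Bset {M : SM} (hQ : Poly M.Q) (hV : Poly M.V) (hVA : Poly M.VA) (c : ℕ) :
    InNEXP (Bset M c) := by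
  refine ⟨fun v => [VB M c v], RBP M c, polyTime_of_poly (poly_VB hQ hV hVA c), fun z => ?_⟩
  have key : ∀ pad : List Unit, 2 ^ (RBP M c).eval z.length ≤ pad.length →
      (strsB z.length pad).zip (tn (csP M c z.length pad)).bits =
        (strs z.length).zip (tn (cs M c z.length)).bits := by
    intro pad hp
    rw [RBP_eval] at hp
    have hm : ∀ {k : ℕ}, k ≤ z.length + nn c z.length + KK c z.length +
        (M.on []).ww c (NN c z.length) + M.P.eval (M.p.eval (NN c z.length)) +
        M.pl.eval (NN c z.length) + M.PA.eval (M.pl.eval (NN c z.length)) →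
        2 ^ k ≤ pad.length := fun hk => (Nat.pow_le_pow_right (by norm_num) hk).trans hp
    rw [strsB_eq (hm (by omega)), csP_eq (hm (by omega)) (hm (by omega)) (hm (by omega))
      (hm (by omega)) (hm (by omega)) (hm (by omega))]
  constructor
  · intro hz
    refine ⟨List.replicate (2 ^ (RBP M c).eval z.length) false, by simp, ?_⟩
    rw [List.cons.injEq]
    refine ⟨?_, rfl⟩
    unfold VB
    rw [unpair_pairBits]
    simp only [List.map_replicate, List.length_replicate, le_refl, decide_true, Bool.true_and]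
    rw [decide_eq_true_eq, key _ (by simp)]
    exact hz
  · rintro ⟨w, _, hw⟩
    rw [List.cons.injEq] at hw
    have hw := hw.1
    unfold VB at hw
    rw [unpair_pairBits, Bool.and_eq_true, decide_eq_true_eq, decide_eq_true_eq] at hw
    rw [key _ hw.1] at hw
    exact hw.2

/-! ### The diagonal string -/

/-- The machine with its table for the length `NN c l`. -/
abbrev MT (M : SM) (c l : ℕ) : RM := M.on (M.tbl (NN c l))

/-! ### The two tests -/

/-- A list of certified strings. -/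
abbrev CL : Type := List (List Bool × List Bool)

/-- The test of the second pair of lists of certified strings. -/
def core2 (M : SM) (c : ℕ) (pad : List Unit) (n R : ℕ) (Xs Vs : List (List Bool))
    (UBl : List (List Bool × List Bool)) (C : List ℕ) (x : List Bool) (EA E : CL) : Bool :=
  chkA M n EA.length EA &&
  (decide (EA.length :: prof (ZZ UBl Xs) ((M.on (EA.map Prod.fst)).qsP c pad) (orc M.V E) R = C) &&
    decide ((x, true) ∈ Xs.zip (dg Vs (UBl.map (pat ((M.on (EA.map Prod.fst)).dcP c pad)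
      ((M.on (EA.map Prod.fst)).qsP c pad) (orc M.V E) R Xs)))))

/-- The test of the first pair of lists of certified strings. -/
def core1 (M : SM) (c : ℕ) (pad : List Unit) (n R : ℕ) (Zs : List (List Bool)) (a : List Bool)
    (C : List ℕ) (EA E : CL) : Bool :=
  chkA M n EA.length EA &&
    decide (EA.length :: prof (Zs.map (fun z => (z, a))) ((M.on (EA.map Prod.fst)).qsP c pad)
      (orc M.V E) R = C)

/-- The number whose bits are decided. -/
def num (M : SM) (c : ℕ) (pad : List Unit) (R : ℕ) (Zs : List (List Bool)) (a : List Bool)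
    (EA E : CL) : ℕ :=
  valB (Zs.map (fun z => fin ((M.on (EA.map Prod.fst)).dcP c pad)
    ((M.on (EA.map Prod.fst)).qsP c pad) (orc M.V E) R (z, a)))

variable {M M1 : SM} {c l : ℕ} {L : Set (List Bool)} {a a1 : ℕ → List Bool} {n0 n1 : ℕ}
  {pad : List Unit}

theorem core2_sound (hM : M.Ok c L a n0) (hp : 2 ^ (M.on []).ww c (NN c l) ≤ pad.length)
    {x : List Bool} {EA E : CL}
    (h : core2 M c pad (NN c l) (KK c l) (XL c l) (strs (ss c l)) (UB c l) (cs M c l) x EA E =
      true) : (x, true) ∈ (XL c l).zip (dgT (MT M c l) c l) := by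
  unfold core2 at h
  rw [Bool.and_eq_true, Bool.and_eq_true, decide_eq_true_eq, decide_eq_true_eq] at h
  obtain ⟨h0, h1, h2⟩ := h
  unfold cs at h1
  rw [List.cons.injEq] at h1
  rw [h1.1] at h0
  have hF : M.on (EA.map Prod.fst) = MT M c l := on_eq hM (chkA_sound hM.hlA h0)
  rw [hF] at h1 h2
  have h3 : prof (ZL c l) ((MT M c l).qs c) (orc M.V E) (KK c l) =
      prof (ZL c l) ((MT M c l).qs c) (MT M c l).ora (KK c l) := by
    rw [← prof_qsP (M := MT M c l) (pad := pad) (fun z hz => length_of_mem_ZL hz) hp]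
    exact h1.2
  have h4 : ∀ z ∈ ZL c l, hist ((MT M c l).qs c z) (orc M.V E) (KK c l) =
      hist ((MT M c l).qs c z) (MT M c l).ora (KK c l) :=
    hist_eq_of_prof (orc_le (RM.ora_of (M := MT M c l) hM.hl)) h3 (KK c l) le_rfl
  rw [pats_eq (M := MT M c l) (o := orc M.V E) hp h4] at h2
  exact h2

/-- A certificate for every element of the oracle. -/
theorem exists_wit (M : SM) : ∃ wit : List Bool → List Bool,
    (∀ q, (M.on []).ora q = true → M.V (q, wit q) = true) ∧
      ∀ q, (wit q).length ≤ M.P.eval q.length := by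
  classical
  have h : ∀ q, ∃ w : List Bool, ((M.on []).ora q = true → M.V (q, w) = true) ∧
      w.length ≤ M.P.eval q.length := by
    intro q
    by_cases hq : (M.on []).ora q = true
    · unfold RM.ora at hq
      rw [List.any_eq_true] at hq
      obtain ⟨w, hw, hw'⟩ := hq
      exact ⟨w, fun _ => hw', mem_allStr.1 hw⟩
    · exact ⟨[], fun h => absurd h hq, by simp⟩
  choose wit h1 h2 using h
  exact ⟨wit, h1, h2⟩

theorem core2_complete (hM : M.Ok c L a n0) (hp : 2 ^ (M.on []).ww c (NN c l) ≤ pad.length)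
    {x : List Bool} (hx : (x, true) ∈ (XL c l).zip (dgT (MT M c l) c l)) :
    ∃ EA E : CL,
      core2 M c pad (NN c l) (KK c l) (XL c l) (strs (ss c l)) (UB c l) (cs M c l) x EA E = true ∧
      (∀ e ∈ EA, e.1.length ≤ M.pl.eval (NN c l) ∧
        e.2.length ≤ M.PA.eval (M.pl.eval (NN c l))) ∧ EA.length ≤ (M.tbl (NN c l)).length ∧
      (∀ e ∈ E, e.1.length ≤ M.p.eval (NN c l) ∧ e.2.length ≤ M.P.eval (M.p.eval (NN c l))) ∧
      E.length ≤ KK c l * ((ZL c l).length * 2 ^ (M.on []).ww c (NN c l)) := by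
  obtain ⟨wit, hw1, hw2⟩ := exists_wit M
  obtain ⟨EA, hA1, hA2, hA3⟩ := chkA_complete M (NN c l)
  have hF : M.on (EA.map Prod.fst) = MT M c l := on_eq hM (chkA_sound hM.hlA hA1)
  have h1 := orc_cert (Z := ZL c l) (qf := (MT M c l).qs c) (R := KK c l)
    (RM.ora_of (M := MT M c l) hM.hl) hw1
  refine ⟨EA, cert (ZL c l) ((MT M c l).qs c) (MT M c l).ora (KK c l) wit, ?_, hA2, hA3.le, ?_, ?_⟩
  · unfold core2
    rw [hF, Bool.and_eq_true, Bool.and_eq_true, decide_eq_true_eq, decide_eq_true_eq, hA3]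
    refine ⟨hA1, ?_, ?_⟩
    · unfold cs
      rw [List.cons.injEq]
      refine ⟨rfl, ?_⟩
      have h2 := prof_congr h1
      exact (prof_qsP (M := MT M c l) (fun z hz => length_of_mem_ZL hz) hp).trans h2
    · have h4 : ∀ z ∈ ZL c l, hist ((MT M c l).qs c z)
          (orc M.V (cert (ZL c l) ((MT M c l).qs c) (MT M c l).ora (KK c l) wit)) (KK c l) =
          hist ((MT M c l).qs c z) (MT M c l).ora (KK c l) :=
        fun z hz => hist_congr (h1 z hz) (KK c l) le_rfl
      rw [pats_eq (M := MT M c l)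
        (o := orc M.V (cert (ZL c l) ((MT M c l).qs c) (MT M c l).ora (KK c l) wit)) hp h4]
      exact hx
  · intro e he
    obtain ⟨i, _, z, hz, q, hq, _, rfl⟩ := mem_cert.1 he
    have h5 := length_of_mem_qs hq
    rw [length_of_mem_ZL hz] at h5
    exact ⟨h5, (hw2 q).trans (eval_mono _ h5)⟩
  · unfold cert
    rw [List.length_flatMap]
    refine (List.sum_le_card_nsmul _ ((ZL c l).length * 2 ^ (M.on []).ww c (NN c l)) ?_).trans ?_
    · intro m hm
      rw [List.mem_map] at hm
      obtain ⟨i, _, rfl⟩ := hm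
      rw [List.length_flatMap]
      refine (List.sum_le_card_nsmul _ (2 ^ (M.on []).ww c (NN c l)) ?_).trans ?_
      · intro m hm
        rw [List.mem_map] at hm
        obtain ⟨z, hz, rfl⟩ := hm
        rw [List.length_map]
        refine (List.length_filter_le _ _).trans ((length_qs _ _ _ _).trans ?_)
        rw [length_of_mem_ZL hz]
        exact le_rfl
      · rw [List.length_map, smul_eq_mul]
    · rw [List.length_map, List.length_range, smul_eq_mul]

/-! ### The first part -/

/-- The profile of the first part. -/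
def tau (M : SM) (c : ℕ) (a : ℕ → List Bool) (l : ℕ) : List ℕ :=
  (M.tbl l).length ::
    prof (Z1 (a l) l) ((M.on (M.tbl l)).qs c) (M.on (M.tbl l)).ora (l ^ c + c)

theorem core1_sound (hM : M1.Ok c (Bset M c) a n0) (hp : 2 ^ (M1.on []).ww c l ≤ pad.length)
    (hT : tn (cs M c l) < 2 ^ (2 ^ l)) {EA E : CL}
    (h : core1 M1 c pad l (l ^ c + c) (strs l) (a l) (tau M1 c a l) EA E = true) :
    num M1 c pad (l ^ c + c) (strs l) (a l) EA E = tn (cs M c l) := by
  unfold core1 at h
  rw [Bool.and_eq_true, decide_eq_true_eq] at h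
  obtain ⟨h0, h1⟩ := h
  unfold tau at h1
  rw [List.cons.injEq] at h1
  rw [h1.1] at h0
  have hF : M1.on (EA.map Prod.fst) = M1.on (M1.tbl l) := on_eq hM (chkA_sound hM.hlA h0)
  rw [hF] at h1
  have hZ : ∀ z ∈ Z1 (a l) l, z.1.length = l := fun z hz => (mem_Z1.1 hz).1
  have h3 : prof (Z1 (a l) l) ((M1.on (M1.tbl l)).qs c) (orc M1.V E) (l ^ c + c) =
      prof (Z1 (a l) l) ((M1.on (M1.tbl l)).qs c) (M1.on (M1.tbl l)).ora (l ^ c + c) := by
    rw [← prof_qsP (M := M1.on (M1.tbl l)) (pad := pad) hZ hp]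
    exact h1.2
  have h4 : ∀ z ∈ Z1 (a l) l, hist ((M1.on (M1.tbl l)).qs c z) (orc M1.V E) (l ^ c + c) =
      hist ((M1.on (M1.tbl l)).qs c z) (M1.on (M1.tbl l)).ora (l ^ c + c) :=
    hist_eq_of_prof (orc_le (RM.ora_of (M := M1.on (M1.tbl l)) hM.hl)) h3 (l ^ c + c) le_rfl
  unfold num
  rw [← length_strs l] at hT
  have h2 : (strs l).map (fun z => fin ((M1.on (EA.map Prod.fst)).dcP c pad)
      ((M1.on (EA.map Prod.fst)).qsP c pad) (orc M1.V E) (l ^ c + c) (z, a l)) =
      (strs l).map (fun z => decide ((z, true) ∈ (strs l).zip (tn (cs M c l)).bits)) := by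
    refine List.map_congr_left fun z hz => ?_
    have hz' := mem_strs.1 hz
    rw [hF, fin_eq (M := M1.on (M1.tbl l)) (by simp only; rw [hz']; exact hp)]
    unfold fin
    rw [h4 (z, a l) (mem_Z1.2 ⟨hz', rfl⟩)]
    have h5 := hM.dec z
    rw [hz'] at h5
    rw [Bool.eq_iff_iff, decide_eq_true_eq]
    rw [show (M1.on (M1.tbl l)).ora = (M1.on []).ora from rfl, ← h5]
    unfold Bset
    rw [Set.mem_ofPred_eq, hz']
  rw [h2]
  exact valB_zip (nodup_strs l) hT

theorem core1_complete (hM : M1.Ok c L a n0) (hp : 2 ^ (M1.on []).ww c l ≤ pad.length) :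
    ∃ EA E : CL,
      core1 M1 c pad l (l ^ c + c) (strs l) (a l) (tau M1 c a l) EA E = true ∧
      (∀ e ∈ EA, e.1.length ≤ M1.pl.eval l ∧ e.2.length ≤ M1.PA.eval (M1.pl.eval l)) ∧
      EA.length ≤ (M1.tbl l).length ∧
      (∀ e ∈ E, e.1.length ≤ M1.p.eval l ∧ e.2.length ≤ M1.P.eval (M1.p.eval l)) ∧
      E.length ≤ (l ^ c + c) * (2 ^ l * 2 ^ (M1.on []).ww c l) := by
  obtain ⟨wit, hw1, hw2⟩ := exists_wit M1
  obtain ⟨EA, hA1, hA2, hA3⟩ := chkA_complete M1 l
  have hF : M1.on (EA.map Prod.fst) = M1.on (M1.tbl l) := on_eq hM (chkA_sound hM.hlA hA1)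
  have hZ : ∀ z ∈ Z1 (a l) l, z.1.length = l := fun z hz => (mem_Z1.1 hz).1
  have h1 := orc_cert (Z := Z1 (a l) l) (qf := (M1.on (M1.tbl l)).qs c) (R := l ^ c + c)
    (RM.ora_of (M := M1.on (M1.tbl l)) hM.hl) hw1
  refine ⟨EA, cert (Z1 (a l) l) ((M1.on (M1.tbl l)).qs c) (M1.on (M1.tbl l)).ora (l ^ c + c) wit,
    ?_, hA2, hA3.le, ?_, ?_⟩
  · unfold core1
    rw [hF, Bool.and_eq_true, decide_eq_true_eq, hA3]
    refine ⟨hA1, ?_⟩
    unfold tau
    rw [List.cons.injEq]
    exact ⟨rfl, (prof_qsP (M := M1.on (M1.tbl l)) hZ hp).trans (prof_congr h1)⟩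
  · intro e he
    obtain ⟨i, _, z, hz, q, hq, _, rfl⟩ := mem_cert.1 he
    have h5 := length_of_mem_qs hq
    rw [hZ z hz] at h5
    exact ⟨h5, (hw2 q).trans (eval_mono _ h5)⟩
  · unfold cert
    rw [List.length_flatMap]
    refine (List.sum_le_card_nsmul _ (2 ^ l * 2 ^ (M1.on []).ww c l) ?_).trans ?_
    · intro m hm
      rw [List.mem_map] at hm
      obtain ⟨i, _, rfl⟩ := hm
      rw [List.length_flatMap]
      refine (List.sum_le_card_nsmul _ (2 ^ (M1.on []).ww c l) ?_).trans ?_
      · intro m hm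
        rw [List.mem_map] at hm
        obtain ⟨z, hz, rfl⟩ := hm
        rw [List.length_map]
        refine (List.length_filter_le _ _).trans ((length_qs _ _ _ _).trans ?_)
        rw [hZ z hz]
        exact le_rfl
      · rw [List.length_map, smul_eq_mul]
        unfold Z1
        rw [List.length_map, length_strs]
    · rw [List.length_map, List.length_range, smul_eq_mul]

/-! ### The verifier -/

/-- The exponent of the padding. -/
noncomputable def RRP (M M1 : SM) (c : ℕ) : Polynomial ℕ := RD.RRP (M.on []) (M1.on []) c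

theorem RRP_eval (M M1 : SM) (c l : ℕ) : (RRP M M1 c).eval l =
    l + nn c l + KK c l + ss c l + (M1.on []).ww c l + (M.on []).ww c (NN c l) :=
  RD.RRP_eval _ _ _ _

/-- The lists in a certificate. -/
abbrev EE : Type := CL × CL × CL × CL

/-- The verifier. -/
noncomputable def ver (M M1 : SM) (c : ℕ) (el : List Unit) (a : List Bool) (C : List ℕ)
    (x : List Bool) (E : EE) (pad : List Unit) : Bool :=
  decide (2 ^ (RRP M M1 c).eval el.length ≤ pad.length) &&
  (core1 M1 c pad el.length (el.length ^ c + c) (strsB el.length pad) a C E.1 E.2.1 &&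
   core2 M c pad (NN c el.length) (KK c el.length) (XP c el.length pad)
    (strsB (ss c el.length) pad) (UP c el.length pad)
    (dn (num M1 c pad (el.length ^ c + c) (strsB el.length pad) a E.1 E.2.1)) x
      E.2.2.1 E.2.2.2)

theorem ver_eq {el : List Unit} {a : List Bool} {C : List ℕ} {x : List Bool} {E : EE}
    (h : 2 ^ (RRP M M1 c).eval el.length ≤ pad.length) :
    ver M M1 c el a C x E pad =
      (core1 M1 c pad el.length (el.length ^ c + c) (strs el.length) a C E.1 E.2.1 &&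
        core2 M c pad (NN c el.length) (KK c el.length) (XL c el.length)
          (strs (ss c el.length)) (UB c el.length)
          (dn (num M1 c pad (el.length ^ c + c) (strs el.length) a E.1 E.2.1)) x
          E.2.2.1 E.2.2.2) := by
  unfold ver
  have hp := h
  rw [RRP_eval] at hp
  have hm : ∀ {k : ℕ}, k ≤ el.length + nn c el.length + KK c el.length + ss c el.length +
      (M1.on []).ww c el.length + (M.on []).ww c (NN c el.length) →
      2 ^ k ≤ pad.length := fun hk => (Nat.pow_le_pow_right (by norm_num) hk).trans hp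
  rw [decide_eq_true h, Bool.true_and, strsB_eq (hm (by omega)), strsB_eq (hm (by omega)),
    XP_eq (hm (by omega)), UP_eq (hm (by omega)) (hm (by omega))]

/-! ### Polynomial time -/

section PT

variable {α : Type} [TEnc α]

theorem poly_core1 (hQ : Poly M.Q) (hV : Poly M.V) (hVA : Poly M.VA) (c : ℕ)
    {pad : α → List Unit} {n R : α → ℕ}
    {Zs : α → List (List Bool)} {b : α → List Bool} {C : α → List ℕ}
    {EA E : α → CL} (hpad : Poly pad) (hn : UPoly n) (hR : UPoly R) (hZ : Poly Zs)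
    (hb : Poly b) (hC : Poly C) (hEA : Poly EA) (hE : Poly E) :
    Poly (fun a => core1 M c (pad a) (n a) (R a) (Zs a) (b a) (C a) (EA a) (E a)) := by
  have h0 : Poly (fun a => (EA a).map Prod.fst) :=
    NPC.Poly.map hEA (NPC.Poly.fst (NPC.Poly.snd NPC.Poly.id))
  have h1 : Poly (fun a => (Zs a).map (fun z => (z, b a))) :=
    NPC.Poly.map hZ (NPC.Poly.pair (NPC.Poly.snd NPC.Poly.id) (hb.comp (NPC.Poly.fst NPC.Poly.id)))
  have h2 : Poly (fun a => prof ((Zs a).map (fun z => (z, b a)))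
      ((M.on ((EA a).map Prod.fst)).qsP c (pad a)) (orc M.V (E a)) (R a)) :=
    poly_profPF hQ c h0 hpad h1 (o := fun a => orc M.V (E a))
      (poly_orc hV (hE.comp (NPC.Poly.fst NPC.Poly.id)) (NPC.Poly.snd NPC.Poly.id)) hR
  unfold core1
  exact NPC.Poly.and (poly_chkA hVA hn (NPC.Poly.length hEA) hEA)
    (NPC.Poly.dec_eq (NPC.Poly.cons (NPC.Poly.length hEA) h2) hC)

theorem poly_num (hQ : Poly M.Q) (hD : Poly M.D) (hV : Poly M.V) (c : ℕ) {pad : α → List Unit}
    {R : α → ℕ} {Zs : α → List (List Bool)} {b : α → List Bool}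
    {EA E : α → CL} (hpad : Poly pad) (hR : UPoly R) (hZ : Poly Zs)
    (hb : Poly b) (hEA : Poly EA) (hE : Poly E) :
    Poly (fun a => num M c (pad a) (R a) (Zs a) (b a) (EA a) (E a)) := by
  have h0 : Poly (fun a => (EA a).map Prod.fst) :=
    NPC.Poly.map hEA (NPC.Poly.fst (NPC.Poly.snd NPC.Poly.id))
  unfold num
  refine NPC.Poly.valBits (NPC.Poly.map hZ ?_)
  exact poly_finPF hQ hD hV c (F := fun p : α × List Bool => (EA p.1).map Prod.fst)
    (pad := fun p => pad p.1)
    (z := fun p => (p.2, b p.1)) (E := fun p => E p.1) (R := fun p => R p.1)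
    (h0.comp (NPC.Poly.fst NPC.Poly.id)) (hpad.comp (NPC.Poly.fst NPC.Poly.id))
    (NPC.Poly.pair (NPC.Poly.snd NPC.Poly.id) (hb.comp (NPC.Poly.fst NPC.Poly.id)))
    (hE.comp (NPC.Poly.fst NPC.Poly.id)) (hR.comp (NPC.Poly.fst NPC.Poly.id))

theorem poly_core2 (hQ : Poly M.Q) (hD : Poly M.D) (hV : Poly M.V) (hVA : Poly M.VA) (c : ℕ)
    {pad : α → List Unit} {n R : α → ℕ} {Xs Vs : α → List (List Bool)}
    {UBl : α → List (List Bool × List Bool)} {C : α → List ℕ} {x : α → List Bool}
    {EA E : α → CL} (hpad : Poly pad) (hn : UPoly n) (hR : UPoly R) (hX : Poly Xs)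
    (hVs : Poly Vs) (hU : Poly UBl) (hC : Poly C) (hx : Poly x) (hEA : Poly EA) (hE : Poly E) :
    Poly (fun a => core2 M c (pad a) (n a) (R a) (Xs a) (Vs a) (UBl a) (C a) (x a) (EA a)
      (E a)) := by
  have h0 : Poly (fun a => (EA a).map Prod.fst) :=
    NPC.Poly.map hEA (NPC.Poly.fst (NPC.Poly.snd NPC.Poly.id))
  have h1 : Poly (fun a => prof (ZZ (UBl a) (Xs a)) ((M.on ((EA a).map Prod.fst)).qsP c (pad a))
      (orc M.V (E a)) (R a)) :=
    poly_profPF hQ c h0 hpad (poly_ZZ hU hX) (o := fun a => orc M.V (E a))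
      (poly_orc hV (hE.comp (NPC.Poly.fst NPC.Poly.id)) (NPC.Poly.snd NPC.Poly.id)) hR
  have h2 : Poly (fun p : (α × (List Bool × List Bool)) × List Bool =>
      fin ((M.on ((EA p.1.1).map Prod.fst)).dcP c (pad p.1.1))
        ((M.on ((EA p.1.1).map Prod.fst)).qsP c (pad p.1.1)) (orc M.V (E p.1.1)) (R p.1.1)
        (pairBits p.1.2.1 p.2, p.1.2.2)) :=
    poly_finPF hQ hD hV c
      (F := fun p : (α × (List Bool × List Bool)) × List Bool => (EA p.1.1).map Prod.fst)
      (pad := fun p => pad p.1.1)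
      (z := fun p => (pairBits p.1.2.1 p.2, p.1.2.2)) (E := fun p => E p.1.1)
      (R := fun p => R p.1.1)
      (h0.comp (f := fun p : (α × (List Bool × List Bool)) × List Bool => p.1.1) (by fun_prop))
      (hpad.comp (by fun_prop))
      (NPC.Poly.pair (poly_pairBits (by fun_prop) (by fun_prop)) (by fun_prop))
      (hE.comp (by fun_prop)) (hR.comp (f := fun p : (α × (List Bool × List Bool)) × List Bool =>
        p.1.1) (by fun_prop))
  have h3 : Poly (fun p : α × (List Bool × List Bool) =>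
      pat ((M.on ((EA p.1).map Prod.fst)).dcP c (pad p.1))
        ((M.on ((EA p.1).map Prod.fst)).qsP c (pad p.1)) (orc M.V (E p.1)) (R p.1) (Xs p.1)
        p.2) := by
    unfold pat
    exact NPC.Poly.map (hX.comp (NPC.Poly.fst NPC.Poly.id)) h2
  have h4 : Poly (fun a => (UBl a).map (pat ((M.on ((EA a).map Prod.fst)).dcP c (pad a))
      ((M.on ((EA a).map Prod.fst)).qsP c (pad a)) (orc M.V (E a)) (R a) (Xs a))) :=
    NPC.Poly.map hU h3
  have h5 := poly_dg hVs h4
  unfold core2
  refine NPC.Poly.and (poly_chkA hVA hn (NPC.Poly.length hEA) hEA) (NPC.Poly.and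
    (NPC.Poly.dec_eq (NPC.Poly.cons (NPC.Poly.length hEA) h1) hC) ?_)
  exact NPC.Poly.dec_mem (NPC.Poly.pair hx (NPC.Poly.const true)) (NPC.Poly.zip hX h5)

theorem poly_ver (hQ : Poly M.Q) (hD : Poly M.D) (hV : Poly M.V) (hVA : Poly M.VA)
    (hQ1 : Poly M1.Q) (hD1 : Poly M1.D) (hV1 : Poly M1.V) (hVA1 : Poly M1.VA) (c : ℕ)
    {el : α → List Unit} {a : α → List Bool}
    {C : α → List ℕ} {x : α → List Bool} {E : α → EE}
    {pad : α → List Unit} (hel : Poly el) (ha : Poly a) (hC : Poly C) (hx : Poly x)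
    (hE : Poly E) (hpad : Poly pad) :
    Poly (fun b => ver M M1 c (el b) (a b) (C b) (x b) (E b) (pad b)) := by
  have hl : UPoly (fun b => (el b).length) := UPoly.length hel
  have h1 : Poly (fun b => 2 ^ (RRP M M1 c).eval (el b).length) := poly_pow2 (UPoly.eval hl _)
  have h2 : UPoly (fun b => (el b).length ^ c + c) :=
    upoly_of_eval (f := fun n => n ^ c + c) hl (Polynomial.X ^ c + Polynomial.C c)
      (fun n => by simp)
  have h3 : UPoly (fun b => KK c (el b).length) := upoly_KK hl c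
  have h3' : UPoly (fun b => NN c (el b).length) := upoly_NN hl c
  have h4 : Poly (fun b => strsB (el b).length (pad b)) := poly_strsB hl hpad
  have h5 : Poly (fun b => strsB (ss c (el b).length) (pad b)) := poly_strsB (upoly_ss hl c) hpad
  have h6 := poly_XP hl hpad c
  have h7 := poly_UP hl hpad c
  have e1 : Poly (fun b => (E b).1) := NPC.Poly.fst hE
  have e2 : Poly (fun b => (E b).2.1) := NPC.Poly.fst (NPC.Poly.snd hE)
  have e3 : Poly (fun b => (E b).2.2.1) := NPC.Poly.fst (NPC.Poly.snd (NPC.Poly.snd hE))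
  have e4 : Poly (fun b => (E b).2.2.2) := NPC.Poly.snd (NPC.Poly.snd (NPC.Poly.snd hE))
  have h8 := poly_dn.comp (poly_num hQ1 hD1 hV1 c hpad h2 h4 ha e1 e2)
  unfold ver
  refine NPC.Poly.and (NPC.Poly.decide_le h1 (NPC.Poly.length hpad)) (NPC.Poly.and ?_ ?_)
  · exact poly_core1 hQ1 hV1 hVA1 c hpad hl h2 h4 ha hC e1 e2
  · exact poly_core2 hQ hD hV hVA c hpad h3' h3 h6 h5 h7 h8 hx e3 e4

end PT

theorem ver_sound (hM : M.Ok c L a n0) (hM1 : M1.Ok c (Bset M c) a1 n1)
    (hT : tn (cs M c l) < 2 ^ (2 ^ l)) {x : List Bool} {E : EE}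
    {pad : List Unit}
    (h : ver M M1 c (List.replicate l ()) (a1 l) (tau M1 c a1 l) x E pad = true) :
    (x, true) ∈ (XL c l).zip (dgT (MT M c l) c l) := by
  have hp : 2 ^ (RRP M M1 c).eval (List.replicate l ()).length ≤ pad.length := by
    unfold ver at h
    rw [Bool.and_eq_true, decide_eq_true_eq] at h
    exact h.1
  rw [ver_eq hp, List.length_replicate, Bool.and_eq_true] at h
  rw [List.length_replicate, RRP_eval] at hp
  have h1 := core1_sound hM1 ((Nat.pow_le_pow_right (by norm_num) (by omega)).trans hp) hT h.1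
  rw [h1, dn_tn] at h
  exact core2_sound hM ((Nat.pow_le_pow_right (by norm_num) (by omega)).trans hp) h.2

theorem ver_complete (hM : M.Ok c L a n0) (hM1 : M1.Ok c (Bset M c) a1 n1)
    (hT : tn (cs M c l) < 2 ^ (2 ^ l)) {x : List Bool}
    (hx : (x, true) ∈ (XL c l).zip (dgT (MT M c l) c l)) :
    ∃ E : EE,
      ver M M1 c (List.replicate l ()) (a1 l) (tau M1 c a1 l) x E
        (List.replicate (2 ^ (RRP M M1 c).eval l) ()) = true ∧
      ((∀ e ∈ E.1, e.1.length ≤ M1.pl.eval l ∧ e.2.length ≤ M1.PA.eval (M1.pl.eval l)) ∧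
      E.1.length ≤ (M1.tbl l).length) ∧
      ((∀ e ∈ E.2.1, e.1.length ≤ M1.p.eval l ∧ e.2.length ≤ M1.P.eval (M1.p.eval l)) ∧
      E.2.1.length ≤ (l ^ c + c) * (2 ^ l * 2 ^ (M1.on []).ww c l)) ∧
      ((∀ e ∈ E.2.2.1, e.1.length ≤ M.pl.eval (NN c l) ∧
        e.2.length ≤ M.PA.eval (M.pl.eval (NN c l))) ∧
      E.2.2.1.length ≤ (M.tbl (NN c l)).length) ∧
      ((∀ e ∈ E.2.2.2, e.1.length ≤ M.p.eval (NN c l) ∧
        e.2.length ≤ M.P.eval (M.p.eval (NN c l))) ∧
      E.2.2.2.length ≤ KK c l * ((ZL c l).length * 2 ^ (M.on []).ww c (NN c l))) := by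
  have hp : 2 ^ (RRP M M1 c).eval l ≤ (List.replicate (2 ^ (RRP M M1 c).eval l) ()).length := by
    simp
  have hp1 : 2 ^ (M1.on []).ww c l ≤
      (List.replicate (2 ^ (RRP M M1 c).eval l) ()).length := by
    rw [List.length_replicate, RRP_eval]
    exact Nat.pow_le_pow_right (by norm_num) (by omega)
  have hp2 : 2 ^ (M.on []).ww c (NN c l) ≤
      (List.replicate (2 ^ (RRP M M1 c).eval l) ()).length := by
    rw [List.length_replicate, RRP_eval]
    exact Nat.pow_le_pow_right (by norm_num) (by omega)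
  obtain ⟨EA1, E1, h1, h2, h3, h2', h3'⟩ := core1_complete hM1 hp1
  obtain ⟨EA2, E2, h4, h5, h6, h5', h6'⟩ := core2_complete hM hp2 hx
  refine ⟨(EA1, E1, EA2, E2), ?_, ⟨h2, h3⟩, ⟨h2', h3'⟩, ⟨h5, h6⟩, ⟨h5', h6'⟩⟩
  rw [ver_eq (by rw [List.length_replicate (n := l)]; exact hp), List.length_replicate (n := l),
    Bool.and_eq_true]
  refine ⟨h1, ?_⟩
  rw [core1_sound hM1 hp1 hT h1, dn_tn]
  exact h4

end Pool.Agent.H75C.SP
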